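import Pool.Agent.Lib.MP_f2ebd2_mp.Defs

/-! Pauli algebra and the projector onto a stabilizer state. -/

namespace Pool.Agent.Lib.MP_f2ebd2_mp

open Matrix Complex
open scoped ComplexOrder

def mul4 (a b : Fin 4) : Fin 4 := ⟨a.val ^^^ b.val, by
  have := @Nat.xor_lt_two_pow a.val b.val 2 a.isLt b.isLt
  simpa using this⟩

def ph4 (a b : ℕ) : ℕ :=
  if a = 0 ∨ b = 0 ∨ a = b then 0 else if (a + 1 = b ∨ b + 2 = a) then 1 else 3

lemma sigma_mul (a b : Fin 4) : sigma a * sigma b = (I ^ ph4 a.val b.val) • sigma (mul4 a b) := by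
  fin_cases a <;> fin_cases b <;> ext i j <;> fin_cases i <;> fin_cases j <;>
    simp [sigma, mul4, ph4, Matrix.mul_apply, Fin.sum_univ_two, pow_succ]

lemma sigma_herm (a : Fin 4) (i j : Fin 2) : star (sigma a j i) = sigma a i j := by
  fin_cases a <;> fin_cases i <;> fin_cases j <;> simp [sigma]

lemma sigma_trace (a : Fin 4) : ∑ i, sigma a i i = if a = 0 then 2 else 0 := by
  fin_cases a <;> simp [sigma, Fin.sum_univ_two] <;> norm_num

lemma mul4_eq_zero (a b : Fin 4) : mul4 a b = 0 ↔ a = b := by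
  revert a b; decide

variable {N : ℕ}

lemma pauli_mul (p q : Fin N → Fin 4) :
    pauli p * pauli q = (I ^ (∑ k, ph4 (p k).val (q k).val)) • pauli (fun k => mul4 (p k) (q k)) := by
  ext i j
  simp only [pauli, Matrix.mul_apply, Matrix.of_apply, Matrix.smul_apply, smul_eq_mul]
  have h1 : ∀ l : Fin N → Fin 2, (∏ k, sigma (p k) (i k) (l k)) * ∏ k, sigma (q k) (l k) (j k) =
      ∏ k, (sigma (p k) (i k) (l k) * sigma (q k) (l k) (j k)) := fun l =>
    (Finset.prod_mul_distrib).symm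
  simp only [h1]
  rw [← Fintype.piFinset_univ, ← Finset.prod_univ_sum (fun _ => (Finset.univ : Finset (Fin 2)))
    (fun k (x : Fin 2) => sigma (p k) (i k) x * sigma (q k) x (j k))]
  rw [← Finset.prod_pow_eq_pow_sum, ← Finset.prod_mul_distrib]
  refine Finset.prod_congr rfl fun k _ => ?_
  have := congrFun (congrFun (sigma_mul (p k) (q k)) (i k)) (j k)
  simpa [Matrix.mul_apply] using this

lemma pauli_herm (p : Fin N → Fin 4) : (pauli p)ᴴ = pauli p := by
  ext i j
  simp only [pauli, Matrix.conjTranspose_apply, Matrix.of_apply, star_prod, sigma_herm]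

lemma pauli_trace (p : Fin N → Fin 4) : (pauli p).trace = if p = 0 then 2 ^ N else 0 := by
  simp only [pauli, Matrix.trace, Matrix.diag, Matrix.of_apply]
  rw [← Fintype.piFinset_univ, ← Finset.prod_univ_sum (fun _ => (Finset.univ : Finset (Fin 2)))
    (fun k (x : Fin 2) => sigma (p k) x x)]
  simp only [sigma_trace]
  split_ifs with h
  · subst h; simp
  · obtain ⟨k, hk⟩ := Function.ne_iff.mp h
    exact Finset.prod_eq_zero (Finset.mem_univ k) (by simpa using hk)

lemma pauli_zero : pauli (0 : Fin N → Fin 4) = 1 := by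
  ext i j
  simp only [pauli, Matrix.of_apply, Pi.zero_apply, Matrix.one_apply]
  have : ∀ a b : Fin 2, sigma 0 a b = if a = b then 1 else 0 := by
    intro a b; fin_cases a <;> fin_cases b <;> simp [sigma]
  simp only [this]
  split_ifs with h
  · subst h; simp
  · obtain ⟨k, hk⟩ := Function.ne_iff.mp h
    exact Finset.prod_eq_zero (Finset.mem_univ k) (by simpa using hk)

lemma pauli_mul_self (p : Fin N → Fin 4) : pauli p * pauli p = 1 := by
  rw [pauli_mul]
  have h1 : (fun k => mul4 (p k) (p k)) = (0 : Fin N → Fin 4) := by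
    funext k; simp [mul4_eq_zero]
  have h2 : ∑ k, ph4 (p k).val (p k).val = 0 := by simp [ph4]
  rw [h1, h2, pauli_zero]; simp

lemma trace_pauli_mul (p q : Fin N → Fin 4) :
    (pauli p * pauli q).trace = if p = q then 2 ^ N else 0 := by
  split_ifs with h
  · subst h; rw [pauli_mul_self]; simp
  · rw [pauli_mul, Matrix.trace_smul, pauli_trace, if_neg]
    · simp
    · intro h0
      apply h
      funext k
      exact (mul4_eq_zero _ _).1 (congrFun h0 k)

lemma trace_proj_mul (ψ : (Fin N → Fin 2) → ℂ) (A : Matrix (Fin N → Fin 2) (Fin N → Fin 2) ℂ) :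
    (proj ψ * A).trace = star ψ ⬝ᵥ (A *ᵥ ψ) := by
  rw [Matrix.trace_mul_comm, proj, Matrix.mul_vecMulVec, Matrix.trace_vecMulVec, dotProduct_comm]

/-- A unit vector fixed by a multiplicatively closed set of `2 ^ N` signed Pauli strings not
containing `-1` has the group average as its projector. -/
lemma proj_eq_avg (G : Finset (Matrix (Fin N → Fin 2) (Fin N → Fin 2) ℂ)) (hc : G.card = 2 ^ N)
    (hp : ∀ g ∈ G, ∃ p : Fin N → Fin 4, g = pauli p ∨ g = -pauli p)
    (h1 : (1 : Matrix (Fin N → Fin 2) (Fin N → Fin 2) ℂ) ∈ G)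
    (hm : ∀ g ∈ G, ∀ h ∈ G, g * h ∈ G) (hn : (-1 : Matrix (Fin N → Fin 2) (Fin N → Fin 2) ℂ) ∉ G)
    (ψ : (Fin N → Fin 2) → ℂ) (hu : star ψ ⬝ᵥ ψ = 1) (hf : ∀ g ∈ G, g *ᵥ ψ = ψ) :
    proj ψ = ((2 : ℂ) ^ N)⁻¹ • ∑ g ∈ G, g := by
  classical
  have h2 : ((2 : ℂ) ^ N) ≠ 0 := pow_ne_zero _ two_ne_zero
  have hsq : ∀ g ∈ G, g * g = 1 := by
    intro g hg
    obtain ⟨p, rfl | rfl⟩ := hp g hg
    · exact pauli_mul_self p
    · rw [neg_mul_neg]; exact pauli_mul_self p
  have hherm : ∀ g ∈ G, gᴴ = g := by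
    intro g hg
    obtain ⟨p, rfl | rfl⟩ := hp g hg
    · exact pauli_herm p
    · rw [Matrix.conjTranspose_neg, pauli_herm]
  have hleft : ∀ g ∈ G, g * ∑ h ∈ G, h = ∑ h ∈ G, h := by
    intro g hg
    rw [Finset.mul_sum]
    refine Finset.sum_nbij' (fun h => g * h) (fun h => g * h) (fun h hh => hm g hg h hh)
      (fun h hh => hm g hg h hh) (fun h _ => ?_) (fun h _ => ?_) (fun h _ => rfl)
    · rw [← mul_assoc, hsq g hg, one_mul]
    · rw [← mul_assoc, hsq g hg, one_mul]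
  set P : Matrix (Fin N → Fin 2) (Fin N → Fin 2) ℂ := ((2 : ℂ) ^ N)⁻¹ • ∑ g ∈ G, g with hP
  have hPP : P * P = P := by
    rw [hP, smul_mul_smul_comm, Finset.sum_mul, Finset.sum_congr rfl hleft, Finset.sum_const, hc,
      ← Nat.cast_smul_eq_nsmul ℂ, smul_smul]
    congr 1
    push_cast
    field_simp
  have hPH : Pᴴ = P := by
    rw [hP, Matrix.conjTranspose_smul, Matrix.conjTranspose_sum, Finset.sum_congr rfl hherm]
    simp
  have hPt : P.trace = 1 := by
    rw [hP, Matrix.trace_smul, Matrix.trace_sum, Finset.sum_eq_single_of_mem 1 h1]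
    · simp
    · intro g hg hg1
      obtain ⟨p, rfl | rfl⟩ := hp g hg
      · rw [pauli_trace, if_neg]
        rintro rfl
        exact hg1 pauli_zero
      · rw [Matrix.trace_neg, pauli_trace, if_neg, neg_zero]
        rintro rfl
        rw [pauli_zero] at hg
        exact hn hg
  have hPψ : P *ᵥ ψ = ψ := by
    rw [hP, Matrix.smul_mulVec, Matrix.sum_mulVec, Finset.sum_congr rfl hf, Finset.sum_const, hc,
      ← Nat.cast_smul_eq_nsmul ℂ, smul_smul]
    push_cast
    rw [inv_mul_cancel₀ h2, one_smul]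
  have hQH : (proj ψ)ᴴ = proj ψ := by
    simp [proj, Matrix.conjTranspose_vecMulVec]
  have hPQ : P * proj ψ = proj ψ := by
    rw [proj, Matrix.mul_vecMulVec, hPψ]
  have hQP : proj ψ * P = proj ψ := by
    have := congrArg Matrix.conjTranspose hPQ
    rwa [Matrix.conjTranspose_mul, hQH, hPH] at this
  have hQQ : proj ψ * proj ψ = proj ψ := by
    rw [proj, Matrix.vecMulVec_mul_vecMulVec, hu]; simp
  have hQt : (proj ψ).trace = 1 := by
    rw [proj, Matrix.trace_vecMulVec, dotProduct_comm, hu]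
  have hD : ((P - proj ψ)ᴴ * (P - proj ψ)).trace = 0 := by
    rw [Matrix.conjTranspose_sub, hPH, hQH, sub_mul, mul_sub, mul_sub, hPP, hPQ, hQP, hQQ]
    simp [hPt, hQt]
  rw [Matrix.trace_conjTranspose_mul_self_eq_zero_iff] at hD
  exact (sub_eq_zero.1 hD).symm

/-- The finite set of matrices underlying the group of a stabilizer state. -/
lemma IsStabilizerState.exists_finset {ψ : (Fin N → Fin 2) → ℂ} (h : IsStabilizerState ψ) :
    ∃ G : Finset (Matrix (Fin N → Fin 2) (Fin N → Fin 2) ℂ), G.card = 2 ^ N ∧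
      (∀ g ∈ G, ∃ p : Fin N → Fin 4, g = pauli p ∨ g = -pauli p) ∧
      (1 : Matrix (Fin N → Fin 2) (Fin N → Fin 2) ℂ) ∈ G ∧
      (∀ g ∈ G, ∀ h ∈ G, g * h ∈ G) ∧ (-1 : Matrix (Fin N → Fin 2) (Fin N → Fin 2) ℂ) ∉ G ∧
      ∀ g ∈ G, g *ᵥ ψ = ψ := by
  classical
  obtain ⟨-, G, hc, hp, -, hn, hf⟩ := h
  have hfin : Finite G := Nat.finite_of_card_ne_zero (by rw [hc]; positivity)
  have hS : (G : Set (Matrix (Fin N → Fin 2) (Fin N → Fin 2) ℂ)ˣ).Finite := Set.toFinite _
  refine ⟨hS.toFinset.image Units.val, ?_, ?_, ?_, ?_, ?_, ?_⟩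
  · rw [Finset.card_image_of_injective _ Units.val_injective, ← hc,
      ← Set.ncard_eq_toFinset_card _ hS]
    rfl
  · intro g hg
    obtain ⟨u, hu, rfl⟩ := Finset.mem_image.1 hg
    exact hp u (hS.mem_toFinset.1 hu)
  · exact Finset.mem_image.2 ⟨1, hS.mem_toFinset.2 G.one_mem, rfl⟩
  · intro g hg h hh
    obtain ⟨u, hu, rfl⟩ := Finset.mem_image.1 hg
    obtain ⟨v, hv, rfl⟩ := Finset.mem_image.1 hh
    exact Finset.mem_image.2 ⟨u * v,
      hS.mem_toFinset.2 (G.mul_mem (hS.mem_toFinset.1 hu) (hS.mem_toFinset.1 hv)), rfl⟩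
  · intro hg
    obtain ⟨u, hu, hu1⟩ := Finset.mem_image.1 hg
    apply hn
    have : u = -1 := Units.ext (by simpa using hu1)
    rw [← this]
    exact hS.mem_toFinset.1 hu
  · intro g hg
    obtain ⟨u, hu, rfl⟩ := Finset.mem_image.1 hg
    exact hf u (hS.mem_toFinset.1 hu)

/-- Trichotomy for the expectation of a Pauli string in a stabilizer state. -/
lemma IsStabilizerState.trichotomy {ψ : (Fin N → Fin 2) → ℂ} (h : IsStabilizerState ψ)
    (q : Fin N → Fin 4) :
    pauli q *ᵥ ψ = ψ ∨ pauli q *ᵥ ψ = -ψ ∨ (proj ψ * pauli q).trace = 0 := by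
  obtain ⟨G, hc, hp, h1, hm, hn, hf⟩ := h.exists_finset
  by_cases hq : pauli q ∈ G
  · exact Or.inl (hf _ hq)
  by_cases hq' : -pauli q ∈ G
  · have := hf _ hq'
    rw [Matrix.neg_mulVec] at this
    exact Or.inr (Or.inl (neg_eq_iff_eq_neg.1 this))
  refine Or.inr (Or.inr ?_)
  rw [proj_eq_avg G hc hp h1 hm hn ψ h.1 hf, smul_mul_assoc, Matrix.trace_smul, Finset.sum_mul,
    Matrix.trace_sum, Finset.sum_eq_zero, smul_zero]
  intro g hg
  obtain ⟨p, rfl | rfl⟩ := hp g hg
  · rw [trace_pauli_mul, if_neg]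
    rintro rfl
    exact hq hg
  · rw [neg_mul, Matrix.trace_neg, trace_pauli_mul, if_neg, neg_zero]
    rintro rfl
    exact hq' hg

end Pool.Agent.Lib.MP_f2ebd2_mp
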