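import Pool.Agent.Lib.MP_f2ebd2_mp.Comp

/-! Link between the integer encodings and the matrices. -/

namespace Pool.Agent.Lib.MP_f2ebd2_mp

open Matrix Complex
open scoped ComplexOrder

abbrev Mat := Matrix (Fin 6 → Fin 2) (Fin 6 → Fin 2) ℂ
abbrev Vec := (Fin 6 → Fin 2) → ℂ

def dec (n : ℕ) : Fin 6 → Fin 4 := fun k => ⟨n / 4 ^ k.val % 4, Nat.mod_lt _ (by norm_num)⟩

noncomputable def M (n : ℕ) : Mat := pauli (dec n)

lemma dec_xor (a b : ℕ) : dec (a ^^^ b) = fun k => mul4 (dec a k) (dec b k) := by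
  funext k
  apply Fin.ext
  simp only [dec, mul4]
  have h4 : (4 : ℕ) ^ k.val = 2 ^ (2 * k.val) := by rw [pow_mul]; norm_num
  have h5 : (4 : ℕ) = 2 ^ 2 := by norm_num
  rw [h4, Nat.xor_div_two_pow, h5, Nat.xor_mod_two_pow]

lemma M_mul (a b : ℕ) : M a * M b = (I ^ phN a b) • M (a ^^^ b) := by
  rw [M, M, pauli_mul, M, dec_xor]
  congr 2
  simp [Fin.sum_univ_six, dec, phN]

lemma M_herm (a : ℕ) : (M a)ᴴ = M a := pauli_herm _

lemma M_sq (a : ℕ) : M a * M a = 1 := pauli_mul_self _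

lemma dec_zero : dec 0 = 0 := by
  funext k; apply Fin.ext; simp [dec]

lemma M_zero : M 0 = 1 := by rw [M, dec_zero, pauli_zero]

lemma dec_inj {a b : ℕ} (ha : a < 4096) (hb : b < 4096) (h : dec a = dec b) : a = b := by
  have h0 := congrArg Fin.val (congrFun h 0)
  have h1 := congrArg Fin.val (congrFun h 1)
  have h2 := congrArg Fin.val (congrFun h 2)
  have h3 := congrArg Fin.val (congrFun h 3)
  have h4 := congrArg Fin.val (congrFun h 4)
  have h5 := congrArg Fin.val (congrFun h 5)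
  simp [dec] at h0 h1 h2 h3 h4 h5
  omega

lemma trace_M_mul {a b : ℕ} (ha : a < 4096) (hb : b < 4096) :
    (M a * M b).trace = if a = b then 64 else 0 := by
  rw [M, M, trace_pauli_mul]
  by_cases h : a = b
  · subst h; simp; norm_num
  · rw [if_neg h, if_neg fun h' => h (dec_inj ha hb h')]

lemma sum_dec {α : Type*} [AddCommMonoid α] (f : (Fin 6 → Fin 4) → α) :
    ∑ p, f p = ∑ n ∈ Finset.range 4096, f (dec n) := by
  rw [← Equiv.sum_comp (finFunctionFinEquiv (m := 4) (n := 6)).symm f]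
  have : (4096 : ℕ) = 4 ^ 6 := by norm_num
  rw [this, ← Fin.sum_univ_eq_sum_range (fun n => f (dec n))]
  refine Finset.sum_congr rfl fun x _ => ?_
  congr 1

lemma exists_dec (p : Fin 6 → Fin 4) : ∃ n < 4096, dec n = p := by
  refine ⟨(finFunctionFinEquiv p).val, (finFunctionFinEquiv p).isLt, ?_⟩
  conv_rhs => rw [← (finFunctionFinEquiv (m := 4) (n := 6)).symm_apply_apply p]
  rfl

lemma card_cnt (n : ℕ) (e : Fin 4) :
    (Finset.univ.filter fun k => dec n k = e).card = cnt n e.val := by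
  rw [Finset.card_filter, Fin.sum_univ_six]
  simp [dec, cnt, ind, Fin.ext_iff]

lemma ind_zero_eq (a b : ℕ) : ind a 0 = ind b 0 ↔ (a ≠ 0 ↔ b ≠ 0) := by
  unfold ind; split_ifs <;> simp_all

lemma key_iff (n m : ℕ) : key n = key m ↔
    ((Finset.univ.filter fun k => dec n k ≠ 0) = (Finset.univ.filter fun k => dec m k ≠ 0) ∧
      (Finset.univ.filter fun k => dec n k = 1).card =
        (Finset.univ.filter fun k => dec m k = 1).card ∧
      (Finset.univ.filter fun k => dec n k = 2).card =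
        (Finset.univ.filter fun k => dec m k = 2).card ∧
      (Finset.univ.filter fun k => dec n k = 3).card =
        (Finset.univ.filter fun k => dec m k = 3).card) := by
  simp only [card_cnt, key, List.cons.injEq, and_true, ind_zero_eq, Finset.ext_iff,
    Finset.mem_filter, Finset.mem_univ, true_and, Fin.forall_fin_succ]
  simp [dec, Fin.ext_iff, and_assoc]

lemma trace_symOp (A : Mat) (m : ℕ) :
    (A * symOp (Finset.univ.filter fun k => dec m k = 1).card
      (Finset.univ.filter fun k => dec m k = 2).card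
      (Finset.univ.filter fun k => dec m k = 3).card
      (Finset.univ.filter fun k => dec m k ≠ 0)).trace =
      ∑ n ∈ Finset.range 4096, if key n = key m then (A * M n).trace else 0 := by
  rw [symOp, Finset.mul_sum, Matrix.trace_sum, Finset.sum_filter, sum_dec]
  refine Finset.sum_congr rfl fun n _ => ?_
  simp only [key_iff, M]

lemma card_split (p : Fin 6 → Fin 4) :
    (Finset.univ.filter fun k => p k = 1).card + (Finset.univ.filter fun k => p k = 2).card +
      (Finset.univ.filter fun k => p k = 3).card = (Finset.univ.filter fun k => p k ≠ 0).card := by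
  simp only [Finset.card_filter, ← Finset.sum_add_distrib]
  refine Finset.sum_congr rfl fun k _ => ?_
  generalize p k = x
  revert x; decide

lemma SameData.keySum {ρ τ : Mat} (h : SameData ρ τ) {m : ℕ} (hm : m < 4096) (h0 : m ≠ 0) :
    (∑ n ∈ Finset.range 4096, if key n = key m then (ρ * M n).trace else 0) =
      ∑ n ∈ Finset.range 4096, if key n = key m then (τ * M n).trace else 0 := by
  rw [← trace_symOp, ← trace_symOp]
  refine h _ ?_ _ _ _ (card_split _)
  by_contra hne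
  apply h0
  refine dec_inj hm (by norm_num) ?_
  rw [dec_zero]
  funext k
  by_contra hk
  exact hne ⟨k, Finset.mem_filter.2 ⟨Finset.mem_univ _, hk⟩⟩

lemma sameData_of_keySum {ρ τ : Mat} (h : ∀ m < 4096,
    (∑ n ∈ Finset.range 4096, if key n = key m then (ρ * M n).trace else 0) =
      ∑ n ∈ Finset.range 4096, if key n = key m then (τ * M n).trace else 0) : SameData ρ τ := by
  intro J _ a b c _
  by_cases hex : ∃ p : Fin 6 → Fin 4, (Finset.univ.filter fun k => p k ≠ 0) = J ∧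
      (Finset.univ.filter fun k => p k = 1).card = a ∧
      (Finset.univ.filter fun k => p k = 2).card = b ∧
      (Finset.univ.filter fun k => p k = 3).card = c
  · obtain ⟨p, h1, h2, h3, h4⟩ := hex
    obtain ⟨m, hm, rfl⟩ := exists_dec p
    rw [← h1, ← h2, ← h3, ← h4, trace_symOp, trace_symOp]
    exact h m hm
  · have : symOp a b c J = 0 := by
      rw [symOp]
      refine Finset.sum_eq_zero fun p hp => ?_
      exact absurd ⟨p, (Finset.mem_filter.1 hp).2⟩ hex
    rw [this, mul_zero, mul_zero]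

lemma sum_cls {α : Type*} [AddCommMonoid α] (f : ℕ → α) (m : ℕ) :
    (∑ n ∈ Finset.range 4096, if key n = key m then f n else 0) = ((cls m).map f).sum := by
  rw [← Finset.sum_filter, cls, ← List.sum_toFinset _ (List.Nodup.filter _ List.nodup_range)]
  refine Finset.sum_congr ?_ fun _ _ => rfl
  ext n
  simp

/-! ### The stabilizer group of the example -/

noncomputable def gen (n : ℕ) : Mat := (e0 n : ℂ) • M n

open Classical in
noncomputable def G0 : Finset Mat := L0.toFinset.image gen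

lemma gen_injOn : Set.InjOn gen (L0.toFinset : Set ℕ) := by
  intro a ha b hb hab
  have ha' := chk_L0 a (by simpa using ha)
  have hb' := chk_L0 b (by simpa using hb)
  by_contra hne
  have := congrArg (fun A => (A * M a).trace) hab
  simp only [gen, smul_mul_assoc, Matrix.trace_smul, trace_M_mul ha'.1 ha'.1,
    trace_M_mul hb'.1 ha'.1, if_neg (Ne.symm hne)] at this
  rcases ha'.2 with h | h <;> simp [h] at this

lemma mem_G0 {g : Mat} : g ∈ G0 ↔ ∃ n ∈ L0, gen n = g := by
  simp [G0]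

lemma G0_card : G0.card = 2 ^ 6 := by
  classical
  rw [G0, Finset.card_image_of_injOn gen_injOn, List.toFinset_card_of_nodup chk_L0_nodup,
    chk_L0_len]
  norm_num

lemma G0_pauli : ∀ g ∈ G0, ∃ p : Fin 6 → Fin 4, g = pauli p ∨ g = -pauli p := by
  intro g hg
  obtain ⟨n, hn, rfl⟩ := mem_G0.1 hg
  refine ⟨dec n, ?_⟩
  rcases (chk_L0 n hn).2 with h | h <;> simp [gen, h, M]

lemma G0_one : (1 : Mat) ∈ G0 := mem_G0.2 ⟨0, chk_zero.1, by simp [gen, chk_zero.2, M_zero]⟩

lemma xor_lt {a b : ℕ} (ha : a < 4096) (hb : b < 4096) : a ^^^ b < 4096 := by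
  have := @Nat.xor_lt_two_pow a b 12 (by simpa using ha) (by simpa using hb)
  simpa using this

lemma I_pow_of_zero {k : ℕ} (h : k % 4 = 0) : I ^ k = 1 := by
  rw [Complex.I_pow_eq_pow_mod, h]; simp

lemma I_pow_of_two {k : ℕ} (h : k % 4 = 2) : I ^ k = -1 := by
  rw [Complex.I_pow_eq_pow_mod, h]; simp

lemma gen_mul {a b : ℕ} (ha : a ∈ L0) (hb : b ∈ L0) :
    a ^^^ b ∈ L0 ∧ gen a * gen b = gen (a ^^^ b) := by
  obtain ⟨h1, h2⟩ := chk_mul a ha b hb
  refine ⟨(chk_e0 _ (xor_lt (chk_L0 a ha).1 (chk_L0 b hb).1)).resolve_left h1, ?_⟩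
  rw [gen, gen, gen, smul_mul_smul_comm, M_mul, smul_smul]
  congr 1
  rcases h2 with ⟨h3, h4⟩ | ⟨h3, h4⟩
  · rw [I_pow_of_zero h3, ← h4]; push_cast; ring
  · rw [I_pow_of_two h3, ← Int.cast_mul, h4]; push_cast; ring

lemma G0_mul : ∀ g ∈ G0, ∀ h ∈ G0, g * h ∈ G0 := by
  intro g hg h hh
  obtain ⟨a, ha, rfl⟩ := mem_G0.1 hg
  obtain ⟨b, hb, rfl⟩ := mem_G0.1 hh
  exact mem_G0.2 ⟨_, (gen_mul ha hb).1, (gen_mul ha hb).2.symm⟩

lemma G0_comm : ∀ g ∈ G0, ∀ h ∈ G0, g * h = h * g := by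
  intro g hg h hh
  obtain ⟨a, ha, rfl⟩ := mem_G0.1 hg
  obtain ⟨b, hb, rfl⟩ := mem_G0.1 hh
  rw [(gen_mul ha hb).2, (gen_mul hb ha).2, Nat.xor_comm]

lemma G0_sq : ∀ g ∈ G0, g * g = 1 := by
  intro g hg
  obtain ⟨p, rfl | rfl⟩ := G0_pauli g hg
  · exact pauli_mul_self p
  · rw [neg_mul_neg]; exact pauli_mul_self p

lemma trace_gen_mul {a n : ℕ} (ha : a ∈ L0) (hn : n < 4096) :
    (gen a * M n).trace = if a = n then 64 * (e0 n : ℂ) else 0 := by
  rw [gen, smul_mul_assoc, Matrix.trace_smul, trace_M_mul (chk_L0 a ha).1 hn]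
  split_ifs with h
  · subst h; simp [mul_comm]
  · simp

lemma G0_neg : (-1 : Mat) ∉ G0 := by
  intro h
  obtain ⟨a, ha, h1⟩ := mem_G0.1 h
  have h2 := trace_gen_mul ha (n := 0) (by norm_num)
  rw [h1, M_zero, chk_zero.2] at h2
  split_ifs at h2 <;> norm_num at h2

noncomputable def P0 : Mat := ((2 : ℂ) ^ 6)⁻¹ • ∑ g ∈ G0, g

lemma trace_P0_mul {n : ℕ} (hn : n < 4096) : (P0 * M n).trace = e0 n := by
  classical
  rw [P0, smul_mul_assoc, Matrix.trace_smul, Finset.sum_mul, Matrix.trace_sum, G0,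
    Finset.sum_image gen_injOn,
    Finset.sum_congr rfl fun a ha => trace_gen_mul (List.mem_toFinset.1 ha) hn, Finset.sum_ite_eq']
  split_ifs with h
  · simp only [smul_eq_mul]; ring
  · rcases chk_e0 n hn with h0 | h0
    · simp [h0]
    · exact absurd (List.mem_toFinset.2 h0) h

lemma proj_eq_P0 {χ : Vec} (hu : star χ ⬝ᵥ χ = 1) (hf : ∀ g ∈ G0, g *ᵥ χ = χ) : proj χ = P0 :=
  proj_eq_avg G0 G0_card G0_pauli G0_one G0_mul G0_neg χ hu hf

lemma exists_psi : ∃ ψ : Vec, star ψ ⬝ᵥ ψ = 1 ∧ ∀ g ∈ G0, g *ᵥ ψ = ψ := by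
  classical
  have hleft : ∀ g ∈ G0, g * P0 = P0 := by
    intro g hg
    rw [P0, mul_smul_comm, Finset.mul_sum]
    congr 1
    refine Finset.sum_nbij' (fun h => g * h) (fun h => g * h) (fun h hh => G0_mul g hg h hh)
      (fun h hh => G0_mul g hg h hh) (fun h _ => ?_) (fun h _ => ?_) (fun h _ => rfl)
    · rw [← mul_assoc, G0_sq g hg, one_mul]
    · rw [← mul_assoc, G0_sq g hg, one_mul]
  have hne : P0 ≠ 0 := by
    intro h
    have := trace_P0_mul (n := 0) (by norm_num)
    rw [h, chk_zero.2] at this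
    simp at this
  obtain ⟨v, hv⟩ : ∃ v : Vec, P0 *ᵥ v ≠ 0 := by
    by_contra hcon
    push Not at hcon
    exact hne (Matrix.ext_iff_mulVec.2 fun v => by simpa using hcon v)
  set u := P0 *ᵥ v with hu
  have hpos : 0 < star u ⬝ᵥ u := Matrix.dotProduct_star_self_pos_iff.2 hv
  obtain ⟨hre, him⟩ := Complex.pos_iff.1 hpos
  set r : ℝ := (star u ⬝ᵥ u).re with hr
  have hval : star u ⬝ᵥ u = (r : ℂ) := Complex.ext (by simp [hr]) (by simp [← him])
  have hs : (Real.sqrt r : ℂ) * (Real.sqrt r : ℂ) = r := by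
    rw [← Complex.ofReal_mul, Real.mul_self_sqrt hre.le]
  have hs0 : (Real.sqrt r : ℂ) ≠ 0 := by
    exact_mod_cast (Real.sqrt_pos.2 hre).ne'
  refine ⟨((Real.sqrt r : ℂ))⁻¹ • u, ?_, fun g hg => ?_⟩
  · rw [star_smul, smul_dotProduct, dotProduct_smul, hval, ← hs]
    simp only [smul_eq_mul, star_inv₀, Complex.star_def, Complex.conj_ofReal]
    field_simp
  · rw [Matrix.mulVec_smul, hu, Matrix.mulVec_mulVec, hleft g hg]

lemma isStab_of_fixed {ψ : Vec} (hu : star ψ ⬝ᵥ ψ = 1) (hf : ∀ g ∈ G0, g *ᵥ ψ = ψ) :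
    IsStabilizerState ψ := by
  classical
  let H : Subgroup Matˣ :=
    { carrier := {u | u.val ∈ G0}
      mul_mem' := fun {a b} ha hb => G0_mul _ ha _ hb
      one_mem' := G0_one
      inv_mem' := fun {a} ha => by
        have h1 : a⁻¹ = a := by
          rw [inv_eq_iff_mul_eq_one]
          exact Units.ext (G0_sq _ ha)
        rw [h1]; exact ha }
  refine ⟨hu, H, ?_, fun g hg => G0_pauli _ hg, fun g hg h hh => Units.ext (G0_comm _ hg _ hh),
    fun h => G0_neg h, fun g hg => hf _ hg⟩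
  rw [← G0_card, ← Nat.card_eq_finsetCard]
  refine Nat.card_congr
    { toFun := fun u => ⟨u.1.val, u.2⟩
      invFun := fun g => ⟨⟨g.1, g.1, G0_sq _ g.2, G0_sq _ g.2⟩, g.2⟩
      left_inv := fun u => Subtype.ext (Units.ext rfl)
      right_inv := fun g => rfl }

end Pool.Agent.Lib.MP_f2ebd2_mp
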