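import Mathlib

/-! Definitions for uniform state certification on `N` qubits. -/

namespace Pool.Agent.Lib.MP_f2ebd2_mp

open Matrix
open scoped ComplexOrder

/-- The one-qubit matrices `I, X, Y, Z`, numbered `0, 1, 2, 3`. -/
def sigma : Fin 4 → Matrix (Fin 2) (Fin 2) ℂ :=
  ![!![1, 0; 0, 1], !![0, 1; 1, 0], !![0, -Complex.I; Complex.I, 0], !![1, 0; 0, -1]]

/-- The Pauli string with letter `p k` on qubit `k`: the tensor product of the `sigma (p k)`. -/
def pauli {N : ℕ} (p : Fin N → Fin 4) : Matrix (Fin N → Fin 2) (Fin N → Fin 2) ℂ :=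
  Matrix.of fun i j => ∏ k, sigma (p k) (i k) (j k)

/-- `S(a,b,c;I)`: the sum of all Pauli strings with support exactly `I` that have `a` letters `X`,
`b` letters `Y` and `c` letters `Z`. -/
def symOp {N : ℕ} (a b c : ℕ) (I : Finset (Fin N)) : Matrix (Fin N → Fin 2) (Fin N → Fin 2) ℂ :=
  ∑ p : Fin N → Fin 4 with (Finset.univ.filter fun k => p k ≠ 0) = I ∧
      (Finset.univ.filter fun k => p k = 1).card = a ∧
      (Finset.univ.filter fun k => p k = 2).card = b ∧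
      (Finset.univ.filter fun k => p k = 3).card = c, pauli p

/-- The rank-one matrix `|ψ⟩⟨ψ|`. -/
def proj {N : ℕ} (ψ : (Fin N → Fin 2) → ℂ) : Matrix (Fin N → Fin 2) (Fin N → Fin 2) ℂ :=
  Matrix.vecMulVec ψ (star ψ)

/-- Density matrices: positive semidefinite with trace one. -/
def IsDensity {N : ℕ} (ρ : Matrix (Fin N → Fin 2) (Fin N → Fin 2) ℂ) : Prop :=
  ρ.PosSemidef ∧ ρ.trace = 1

/-- Stabilizer states: unit vectors fixed by an abelian group of `2 ^ N` signed Pauli strings that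
does not contain `-I`. -/
def IsStabilizerState {N : ℕ} (ψ : (Fin N → Fin 2) → ℂ) : Prop :=
  star ψ ⬝ᵥ ψ = 1 ∧
    ∃ G : Subgroup (Matrix (Fin N → Fin 2) (Fin N → Fin 2) ℂ)ˣ, Nat.card G = 2 ^ N ∧
      (∀ g ∈ G, ∃ p : Fin N → Fin 4, g.val = pauli p ∨ g.val = -pauli p) ∧
      (∀ g ∈ G, ∀ h ∈ G, g * h = h * g) ∧ -1 ∉ G ∧ ∀ g ∈ G, g.val *ᵥ ψ = ψ

/-- Two matrices have the same uniform data. -/
def SameData {N : ℕ} (ρ τ : Matrix (Fin N → Fin 2) (Fin N → Fin 2) ℂ) : Prop :=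
  ∀ I : Finset (Fin N), I.Nonempty → ∀ a b c : ℕ, a + b + c = I.card →
    (ρ * symOp a b c I).trace = (τ * symOp a b c I).trace

/-- `ψ` is uniformly certifiable within the class `𝒞`. -/
def Certifiable {N : ℕ} (𝒞 : Set (Matrix (Fin N → Fin 2) (Fin N → Fin 2) ℂ))
    (ψ : (Fin N → Fin 2) → ℂ) : Prop :=
  ∀ ρ ∈ 𝒞, SameData ρ (proj ψ) → ρ = proj ψ

end Pool.Agent.Lib.MP_f2ebd2_mp
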