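import Pool.Agent.Lib.MP_f2ebd2_mp.ForestSeed

/-! Graph states of forests are uniformly certifiable among all density matrices. -/

namespace Pool.Agent.Lib.MP_f2ebd2_mp

open Matrix Complex
open scoped ComplexOrder MatrixOrder

variable {N : ℕ} {G : SimpleGraph (Fin N)} [DecidableRel G.Adj]

/-- The stabilizer generator of the graph state at `v`. -/
def gen (G : SimpleGraph (Fin N)) [DecidableRel G.Adj] (v : Fin N) : Fin N → Fin 4 :=
  fun k => if k = v then 1 else if G.Adj v k then 3 else 0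

/-- The closed neighbourhood. -/
def cn (G : SimpleGraph (Fin N)) [DecidableRel G.Adj] (v : Fin N) : Finset (Fin N) :=
  Finset.univ.filter fun k => k = v ∨ G.Adj v k

lemma mem_cn {v k : Fin N} : k ∈ cn G v ↔ k = v ∨ G.Adj v k := by simp [cn]

lemma xz_cn (v : Fin N) : xz v (cn G v) = gen G v := by
  funext k
  unfold xz gen
  by_cases h : k = v
  · simp [h]
  · simp [h, mem_cn]

section
variable {ρ τ : Mat N} (hρ : IsDensity ρ) (hτ : IsDensity τ) (hd : SameData ρ τ)
  (hg : ∀ v, pauli (gen G v) * τ = τ)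
include hρ hτ hd hg

lemma fix_of_class {b : Fin N}
    (h : ∀ w, G.Adj b w → E ρ (xz w (cn G b)) = E τ (xz w (cn G b))) :
    pauli (gen G b) * ρ = ρ := by
  have h1 := cancel_xz hd (J := cn G b) (b := b) (mem_cn.2 (Or.inl rfl))
    fun w hw hwb => h w ((mem_cn.1 hw).resolve_left hwb)
  rw [xz_cn, E_of_fix hτ (hg b)] at h1
  exact fix_of_E hρ h1

/-- Propagation along an edge of a triangle-free graph. -/
lemma propagate (hG : G.CliqueFree 3) {a b : Fin N} (hab : G.Adj a b)
    (ha : pauli (gen G a) * ρ = ρ) : pauli (gen G b) * ρ = ρ := by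
  refine fix_of_class hρ hτ hd hg fun w hw => ?_
  by_cases hwa : w = a
  · subst hwa
    set J : Finset (Fin N) := Finset.univ.filter fun k => k ≠ w ∧ ¬ (G.Adj w k ↔ k ∈ cn G b) with hJ
    have ho : ∀ k, gen G w k = 0 ∨ mono 3 J k = 0 ∨ gen G w k = mono 3 J k := by
      intro k
      unfold gen mono
      by_cases h1 : k = w
      · simp [h1, hJ]
      · by_cases h2 : G.Adj w k <;> by_cases h3 : k ∈ J <;> simp [h1, h2, h3]
    have he : xz w (cn G b) = fun k => mul4 (gen G w k) (mono 3 J k) := by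
      funext k
      unfold gen mono xz
      by_cases h1 : k = w
      · simp [h1, hJ]; rfl
      · by_cases h2 : G.Adj w k <;> by_cases h3 : k ∈ cn G b <;> simp [h1, h2, h3, hJ] <;> rfl
    rw [he, E_mul_fix hρ ha ho, E_mul_fix hτ (hg w) ho]
    exact same_mono hρ hτ hd 3 (by decide) J
  · have hna : ¬ G.Adj a w := fun h =>
      hG _ (SimpleGraph.is3Clique_triple_iff.2 ⟨hab, h, hw⟩)
    have hm : gen G a a ≠ 0 ∧ xz w (cn G b) a ≠ 0 ∧ gen G a a ≠ xz w (cn G b) a := by
      have h1 : a ∈ cn G b := mem_cn.2 (Or.inr hab.symm)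
      simp [gen, xz, Ne.symm hwa, h1]
    have ho : ∀ k, k ≠ a → gen G a k = 0 ∨ xz w (cn G b) k = 0 ∨ gen G a k = xz w (cn G b) k := by
      intro k hk
      unfold gen xz
      by_cases h1 : k = w
      · subst h1; simp [hk, hna]
      · by_cases h2 : G.Adj a k <;> by_cases h3 : k ∈ cn G b <;> simp [h1, h2, h3, hk]
    rw [E_zero hρ ha a hm ho, E_zero hτ (hg a) a hm ho]

lemma seed_isolated {v : Fin N} (h : ∀ w, ¬ G.Adj v w) : pauli (gen G v) * ρ = ρ :=
  fix_of_class hρ hτ hd hg fun w hw => absurd hw (h w)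

lemma seed_edge {l m : Fin N} (hlm : G.Adj l m) (hl : ∀ w, G.Adj l w → w = m)
    (hm : ∀ w, G.Adj m w → w = l) : pauli (gen G l) * ρ = ρ := by
  have h1 := same_xz hd {l, m}
  have e1 : xz l {l, m} = gen G l := by
    funext k; unfold xz gen
    by_cases h1 : k = l
    · simp [h1]
    by_cases h2 : k = m
    · simp [h2, hlm]
    have h3 : ¬ G.Adj l k := fun h => h2 (hl k h)
    simp [h1, h2, h3]
  have e2 : xz m {l, m} = gen G m := by
    funext k; unfold xz gen
    by_cases h1 : k = m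
    · simp [h1]
    by_cases h2 : k = l
    · simp [h2, hlm.symm]
    have h3 : ¬ G.Adj m k := fun h => h2 (hm k h)
    simp [h1, h2, h3]
  rw [Finset.sum_pair hlm.ne, Finset.sum_pair hlm.ne, e1, e2, E_of_fix hτ (hg l),
    E_of_fix hτ (hg m)] at h1
  exact fix_of_E_add hρ (q := gen G m) (by rw [h1]; norm_num)

lemma seed_twin {l l' m : Fin N} (hll : l ≠ l') (hlm : G.Adj l m) (hlm' : G.Adj l' m)
    (hl : ∀ w, G.Adj l w → w = m) (hl' : ∀ w, G.Adj l' w → w = m) : pauli (gen G l) * ρ = ρ := by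
  have hn : ¬ G.Adj l l' := fun h => hlm'.ne (hl _ h)
  have hn' : ¬ G.Adj l' l := fun h => hn h.symm
  have hiff : ∀ k, G.Adj l' k ↔ G.Adj l k := fun k =>
    ⟨fun h => hl' k h ▸ hlm, fun h => hl k h ▸ hlm'⟩
  have ho : ∀ k, gen G l k = 0 ∨ gen G l' k = 0 ∨ gen G l k = gen G l' k := by
    intro k
    unfold gen
    by_cases h1 : k = l
    · subst h1; simp [hll, hn']
    by_cases h2 : k = l'
    · subst h2; simp [h1, hn]
    simp [h1, h2, hiff]
  have he : (fun k => mul4 (gen G l k) (gen G l' k)) = mono 1 {l, l'} := by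
    funext k
    unfold gen mono
    by_cases h1 : k = l
    · subst h1; simp [hll, hn']; rfl
    by_cases h2 : k = l'
    · subst h2; simp [h1, hn]; rfl
    by_cases h3 : G.Adj l k <;> simp [h1, h2, hiff, h3] <;> rfl
  have hW : pauli (mono 1 {l, l'}) * τ = τ := by
    rw [← he, ← mul_triv ho, mul_assoc, hg, hg]
  have hWρ : pauli (mono 1 {l, l'}) * ρ = ρ :=
    fix_of_E hρ (by rw [same_mono hρ hτ hd 1 (by decide), E_of_fix hτ hW])
  refine fix_of_class hρ hτ hd hg fun w hw => ?_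
  obtain rfl := hl w hw
  have hm : mono 1 {l, l'} l ≠ 0 ∧ xz w (cn G l) l ≠ 0 ∧ mono 1 {l, l'} l ≠ xz w (cn G l) l := by
    simp [mono, xz, hlm.ne, mem_cn]
  have ho' : ∀ k, k ≠ l → mono 1 {l, l'} k = 0 ∨ xz w (cn G l) k = 0 ∨
      mono 1 {l, l'} k = xz w (cn G l) k := by
    intro k hk
    unfold mono xz
    by_cases h2 : k = l'
    · subst h2; simp [hk, hn, mem_cn, hlm'.ne]
    · simp [hk, h2]
  rw [E_zero hρ hWρ l hm ho', E_zero hτ hW l hm ho']

lemma seed_path {l m p : Fin N} (hlm : G.Adj l m) (hmp : G.Adj m p) (hlp : l ≠ p)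
    (hl : ∀ w, G.Adj l w → w = m) (hm : ∀ w, G.Adj m w → w = l ∨ w = p) :
    pauli (gen G p) * ρ = ρ := by
  have e1 : gen G l = loc l m p 1 3 0 := by
    funext k; unfold gen loc
    by_cases h1 : k = l
    · simp [h1]
    by_cases h2 : k = m
    · simp [h2, hlm]
    have h3 : ¬ G.Adj l k := fun h => h2 (hl k h)
    simp [h1, h2, h3]
  have e2 : gen G m = loc l m p 3 1 3 := by
    funext k; unfold gen loc
    by_cases h1 : k = l
    · simp [h1, hlm.ne, hlm.symm]
    by_cases h2 : k = m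
    · simp [h2, hlm.ne']
    by_cases h3 : k = p
    · simp [h3, hmp, hmp.ne', hlp.symm]
    have h4 : ¬ G.Adj m k := fun h => (hm k h).elim h1 h3
    simp [h1, h2, h3, h4]
  have hW : pauli (loc l m p 2 2 3) * τ = τ := by
    have h1 := loc_mul' hlm.ne hlp hmp.ne 1 3 0 3 1 3 2 2 3 4 (by decide)
    rw [I_pow_four, one_smul] at h1
    rw [← h1, ← e1, ← e2, mul_assoc, hg, hg]
  have hWρ : pauli (loc l m p 2 2 3) * ρ = ρ :=
    fix_of_E hρ (by
      rw [yyz_same hlm.ne hlp hmp.ne hρ hτ hd (by rw [← e1]; exact hg l), E_of_fix hτ hW])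
  refine fix_of_class hρ hτ hd hg fun w hw => ?_
  have hmem : m ∈ cn G p := mem_cn.2 (Or.inr hmp.symm)
  have hpl : ¬ G.Adj p l := fun h => hmp.ne' (hl p h.symm)
  have hwl : l ≠ w := fun h => hpl (h ▸ hw)
  have hm' : loc l m p 2 2 3 m ≠ 0 ∧ xz w (cn G p) m ≠ 0 ∧
      loc l m p 2 2 3 m ≠ xz w (cn G p) m := by
    by_cases h : m = w <;> simp [loc, xz, h, hmem]
  have ho' : ∀ k, k ≠ m → loc l m p 2 2 3 k = 0 ∨ xz w (cn G p) k = 0 ∨
      loc l m p 2 2 3 k = xz w (cn G p) k := by
    intro k hk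
    unfold loc xz
    by_cases h1 : k = l
    · subst h1; simp [hwl, mem_cn, hlp, hpl]
    by_cases h2 : k = p
    · subst h2; simp [h1, hk, hw.ne, mem_cn]
    simp [h1, h2, hk]
  rw [E_zero hρ hWρ m hm' ho', E_zero hτ hW m hm' ho']

end

omit [DecidableRel G.Adj] in
/-- Every nonempty union of components of a finite forest has an isolated vertex, a component that
is one edge, two leaves at a common neighbour, or a pendant path with a middle vertex of degree
two. -/
lemma forest_seed (hG : G.IsAcyclic) (B : Set (Fin N)) (hB : ∀ a b, G.Adj a b → b ∈ B → a ∈ B)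
    {v : Fin N} (hv : v ∈ B) :
    (∃ l ∈ B, ∀ w, ¬ G.Adj l w) ∨
    (∃ l ∈ B, ∃ m, G.Adj l m ∧ (∀ w, G.Adj l w → w = m) ∧ ∀ w, G.Adj m w → w = l) ∨
    (∃ l ∈ B, ∃ l' m, l ≠ l' ∧ G.Adj l m ∧ G.Adj l' m ∧ (∀ w, G.Adj l w → w = m) ∧
      ∀ w, G.Adj l' w → w = m) ∨
    (∃ p ∈ B, ∃ l m, G.Adj l m ∧ G.Adj m p ∧ l ≠ p ∧ (∀ w, G.Adj l w → w = m) ∧
      ∀ w, G.Adj m w → w = l ∨ w = p) := by
  classical
  set S : Set ℕ := {n | ∃ u ∈ B, ∃ w, ∃ q : G.Walk u w, q.IsPath ∧ q.length = n} with hS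
  have hbdd : BddAbove S := ⟨Fintype.card (Fin N), by
    rintro n ⟨u, -, w, q, hq, rfl⟩
    exact hq.length_lt.le⟩
  have hne : S.Nonempty := ⟨0, v, hv, v, SimpleGraph.Walk.nil, SimpleGraph.Walk.IsPath.nil, rfl⟩
  obtain ⟨l, hlB, z, q, hq, hlen⟩ := Nat.sSup_mem hne hbdd
  have hmax : ∀ u ∈ B, ∀ w (r : G.Walk u w), r.IsPath → r.length ≤ sSup S :=
    fun u hu w r hr => le_csSup hbdd ⟨u, hu, w, r, hr, rfl⟩
  have hleaf : ∀ u ∈ B, ∀ w (r : G.Walk u w), r.IsPath → r.length = sSup S →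
      ∀ x, G.Adj u x → x ∈ r.support := by
    intro u hu w r hr hl x hx
    by_contra hn
    have h1 := hmax x (hB x u hx.symm hu) w (SimpleGraph.Walk.cons hx.symm r)
      (hr.cons hn)
    simp only [SimpleGraph.Walk.length_cons] at h1
    omega
  cases q with
  | nil =>
    left
    refine ⟨l, hlB, fun w hw => ?_⟩
    have := hleaf l hlB l _ hq hlen w hw
    simp only [SimpleGraph.Walk.support_nil, List.mem_singleton] at this
    exact hw.ne' this
  | cons hlm r =>
    rename_i m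
    have hmB : m ∈ B := hB m l hlm.symm hlB
    have hl : ∀ w, G.Adj l w → w = m := fun w hw => by
      have := hG.eq_snd_of_adj_start hq hw (hleaf l hlB z _ hq hlen w hw)
      simpa using this
    have hr : r.IsPath := hq.of_cons
    by_cases htw : ∃ l', l ≠ l' ∧ G.Adj l' m ∧ l' ∉ r.support
    · obtain ⟨l', hll, hl'm, hn⟩ := htw
      right; right; left
      refine ⟨l, hlB, l', m, hll, hlm, hl'm, hl, fun w hw => ?_⟩
      have hq' : (SimpleGraph.Walk.cons hl'm r).IsPath := hr.cons hn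
      have := hG.eq_snd_of_adj_start hq' hw
        (hleaf l' (hB l' m hl'm hmB) z _ hq' (by simpa using hlen) w hw)
      simpa using this
    · have hm : ∀ w, G.Adj m w → w = l ∨ w ∈ r.support := by
        intro w hw
        by_contra hn
        rw [not_or] at hn
        exact htw ⟨w, fun h => hn.1 h.symm, hw.symm, hn.2⟩
      cases r with
      | nil =>
        right; left
        refine ⟨l, hlB, _, hlm, hl, fun w hw => ?_⟩
        rcases hm w hw with h | h
        · exact h
        · simp only [SimpleGraph.Walk.support_nil, List.mem_singleton] at h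
          exact absurd h hw.ne'
      | cons hmp s =>
        rename_i p
        right; right; right
        refine ⟨p, hB p m hmp.symm hmB, l, m, hlm, hmp, ?_, hl, fun w hw => ?_⟩
        · rintro rfl
          have := (SimpleGraph.Walk.cons_isPath_iff _ _).1 hq
          exact this.2 (by simp)
        · rcases hm w hw with h | h
          · exact Or.inl h
          · right
            have := hG.eq_snd_of_adj_start hr hw h
            simpa using this

lemma all_fix (hG : G.IsAcyclic) {ρ τ : Mat N} (hρ : IsDensity ρ) (hτ : IsDensity τ)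
    (hd : SameData ρ τ) (hg : ∀ v, pauli (gen G v) * τ = τ) (v : Fin N) :
    pauli (gen G v) * ρ = ρ := by
  by_contra hv
  have hB : ∀ a b, G.Adj a b → b ∈ {v | ¬ pauli (gen G v) * ρ = ρ} →
      a ∈ {v | ¬ pauli (gen G v) * ρ = ρ} := fun a b hab hb ha =>
    hb (propagate hρ hτ hd hg (hG.cliqueFree le_rfl) hab ha)
  rcases forest_seed hG _ hB hv with ⟨l, hl, h⟩ | ⟨l, hl, m, h1, h2, h3⟩ |
    ⟨l, hl, l', m, h1, h2, h3, h4, h5⟩ | ⟨p, hp, l, m, h1, h2, h3, h4, h5⟩
  · exact hl (seed_isolated hρ hτ hd hg h)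
  · exact hl (seed_edge hρ hτ hd hg h1 h2 h3)
  · exact hl (seed_twin hρ hτ hd hg h1 h2 h3 h4 h5)
  · exact hp (seed_path hρ hτ hd hg h1 h2 h3 h4 h5)

lemma gen_apply_ne {v : Fin N} {x y : Fin N → Fin 2} (h : pauli (gen G v) x y ≠ 0) :
    y = Function.update x v (x v + 1) := by
  have h1 : ∀ k, sigma (gen G v k) (x k) (y k) ≠ 0 := fun k =>
    Finset.prod_ne_zero_iff.1 (show ∏ k, sigma (gen G v k) (x k) (y k) ≠ 0 from h) k
      (Finset.mem_univ k)
  have s1 : ∀ a b : Fin 2, sigma 1 a b ≠ 0 → b = a + 1 := by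
    intro a b; fin_cases a <;> fin_cases b <;> simp [sigma]
  have s3 : ∀ a b : Fin 2, sigma 3 a b ≠ 0 → b = a := by
    intro a b; fin_cases a <;> fin_cases b <;> simp [sigma]
  have s0 : ∀ a b : Fin 2, sigma 0 a b ≠ 0 → b = a := by
    intro a b; fin_cases a <;> fin_cases b <;> simp [sigma]
  funext k
  have h2 := h1 k
  unfold gen at h2
  by_cases hk : k = v
  · subst hk
    rw [if_pos rfl] at h2
    rw [Function.update_self]
    exact s1 _ _ h2
  · rw [if_neg hk] at h2
    rw [Function.update_of_ne hk]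
    split_ifs at h2
    · exact s3 _ _ h2
    · exact s0 _ _ h2

lemma eq_zero_of_fixed {φ : (Fin N → Fin 2) → ℂ} (h : ∀ v, pauli (gen G v) *ᵥ φ = φ)
    (h0 : φ 0 = 0) : φ = 0 := by
  classical
  have key : ∀ S : Finset (Fin N), φ (fun k => if k ∈ S then 1 else 0) = 0 := by
    intro S
    induction S using Finset.induction_on with
    | empty => simpa using (show φ (fun _ => 0) = 0 from h0)
    | insert v S hv ih =>
      rw [← congrFun (h v) _, Matrix.mulVec, dotProduct]
      refine Finset.sum_eq_zero fun y _ => ?_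
      by_contra hne
      have h1 := gen_apply_ne (left_ne_zero_of_mul hne)
      have h2 : y = fun k => if k ∈ S then 1 else 0 := by
        rw [h1]
        funext k
        by_cases hk : k = v
        · subst hk; simp [hv]
        · simp [hk]
      rw [h2, ih, mul_zero] at hne
      exact hne rfl
  funext x
  have hx : x = fun k => if k ∈ Finset.univ.filter (fun k => x k = 1) then 1 else 0 := by
    funext k
    have : ∀ a : Fin 2, a = if a = 1 then 1 else 0 := by decide
    simpa using this (x k)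
  rw [hx, key]; rfl

lemma proj_density {ψ : (Fin N → Fin 2) → ℂ} (hu : star ψ ⬝ᵥ ψ = 1) : IsDensity (proj ψ) :=
  ⟨Matrix.posSemidef_vecMulVec_self_star ψ, by
    rw [proj, Matrix.trace_vecMulVec, dotProduct_comm, hu]⟩

lemma eq_proj_of_fixed {ψ : (Fin N → Fin 2) → ℂ} (hu : star ψ ⬝ᵥ ψ = 1)
    (hψ : ∀ v, pauli (gen G v) *ᵥ ψ = ψ) {ρ : Mat N} (hρ : IsDensity ρ)
    (h : ∀ v, pauli (gen G v) * ρ = ρ) : ρ = proj ψ := by
  have h0 : ψ 0 ≠ 0 := fun h0 => by
    rw [eq_zero_of_fixed hψ h0] at hu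
    simp at hu
  have hcol : ∀ i j, ρ i j = ψ i * (ρ 0 j / ψ 0) := by
    intro i j
    have h1 : (fun i => ρ i j) - (ρ 0 j / ψ 0) • ψ = 0 := by
      refine eq_zero_of_fixed (G := G) (fun v => ?_) ?_
      · rw [Matrix.mulVec_sub, Matrix.mulVec_smul, hψ]
        congr 1
        funext i
        exact congrFun (congrFun (h v) i) j
      · simp [div_mul_cancel₀ _ h0]
    have := congrFun h1 i
    simp only [Pi.sub_apply, Pi.smul_apply, smul_eq_mul, Pi.zero_apply] at this
    linear_combination this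
  have hrow : ∀ j, ρ 0 j = star (ψ j) * star (ρ 0 0 / ψ 0) := by
    intro j
    rw [← star_mul', ← hcol j 0]
    exact (hρ.1.1.apply 0 j).symm
  set c := star (ρ 0 0 / ψ 0) / ψ 0 with hc
  have hent : ρ = c • proj ψ := by
    ext i j
    rw [hcol i j, hrow j]
    simp only [proj, Matrix.smul_apply, Matrix.vecMulVec_apply, Pi.star_apply, smul_eq_mul, hc]
    ring
  have h1 := hρ.2
  rw [hent, Matrix.trace_smul, (proj_density hu).2, smul_eq_mul, mul_one] at h1
  rw [hent, h1, one_smul]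

theorem forest_certifiable (hG : G.IsAcyclic) {ψ : (Fin N → Fin 2) → ℂ} (hu : star ψ ⬝ᵥ ψ = 1)
    (hψ : ∀ v, pauli (gen G v) *ᵥ ψ = ψ) : Certifiable {ρ | IsDensity ρ} ψ := by
  intro ρ hρ hd
  refine eq_proj_of_fixed hu hψ hρ (all_fix hG hρ (proj_density hu) hd fun v => ?_)
  rw [proj, Matrix.mul_vecMulVec, hψ]

/-- The sign `(-1) ^ (number of edges inside x)`. -/
def edgeSign (G : SimpleGraph (Fin N)) [DecidableRel G.Adj] (x : Fin N → Fin 2) : ℂ :=
  ∏ i, ∏ j, if i < j ∧ G.Adj i j ∧ x i = 1 ∧ x j = 1 then -1 else 1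

lemma edgeSign_sq (x : Fin N → Fin 2) : star (edgeSign G x) * edgeSign G x = 1 := by
  unfold edgeSign
  rw [star_prod, ← Finset.prod_mul_distrib]
  refine Finset.prod_eq_one fun i _ => ?_
  rw [star_prod, ← Finset.prod_mul_distrib]
  refine Finset.prod_eq_one fun j _ => ?_
  split_ifs <;> simp

lemma edgeSign_flip (v : Fin N) (x : Fin N → Fin 2) :
    (∏ k, if G.Adj v k ∧ x k = 1 then (-1 : ℂ) else 1) *
      edgeSign G (Function.update x v (x v + 1)) = edgeSign G x := by
  have h2 : ∀ a : Fin 2, (a + 1 = 1 ↔ ¬ a = 1) := by decide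
  have h1 : (∏ k, if G.Adj v k ∧ x k = 1 then (-1 : ℂ) else 1) =
      ∏ i, ∏ j, ((if i = v then (if v < j ∧ G.Adj v j ∧ x j = 1 then (-1 : ℂ) else 1) else 1) *
        (if j = v then (if i < v ∧ G.Adj v i ∧ x i = 1 then (-1 : ℂ) else 1) else 1)) := by
    simp only [Finset.prod_mul_distrib]
    rw [Finset.prod_comm]
    simp only [Finset.prod_ite_eq', Finset.mem_univ, if_true]
    rw [← Finset.prod_mul_distrib]
    refine Finset.prod_congr rfl fun k _ => ?_
    rcases lt_trichotomy v k with h | h | h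
    · simp [h, h.le.not_gt]
    · subst h; simp
    · simp [h, h.le.not_gt]
  rw [h1]
  unfold edgeSign
  rw [← Finset.prod_mul_distrib]
  refine Finset.prod_congr rfl fun i _ => ?_
  rw [← Finset.prod_mul_distrib]
  refine Finset.prod_congr rfl fun j _ => ?_
  by_cases hi : i = v
  · subst hi
    by_cases hj : j = i
    · subst hj; simp
    · by_cases a1 : i < j <;> by_cases a2 : G.Adj i j <;> by_cases a3 : x i = 1 <;>
        by_cases a4 : x j = 1 <;> simp [hj, a1, a2, a3, a4, h2]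
  · by_cases hj : j = v
    · subst hj
      by_cases a1 : i < j <;> by_cases a2 : G.Adj i j <;> by_cases a3 : x i = 1 <;>
        by_cases a4 : x j = 1 <;> simp [hi, a1, a2, a3, a4, h2, G.adj_comm j i]
    · simp [hi, hj]

/-- The graph state exists: the hypotheses of `forest_certifiable` are satisfiable. -/
theorem exists_graphState (G : SimpleGraph (Fin N)) [DecidableRel G.Adj] :
    ∃ ψ : (Fin N → Fin 2) → ℂ, star ψ ⬝ᵥ ψ = 1 ∧ ∀ v, pauli (gen G v) *ᵥ ψ = ψ := by
  refine ⟨fun x => ((√2 : ℝ) : ℂ)⁻¹ ^ N * edgeSign G x, ?_, fun v => ?_⟩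
  · have h1 : ∀ x : Fin N → Fin 2, star (((√2 : ℝ) : ℂ)⁻¹ ^ N * edgeSign G x) *
        (((√2 : ℝ) : ℂ)⁻¹ ^ N * edgeSign G x) = (2 : ℂ)⁻¹ ^ N := by
      intro x
      have h3 : ((√2 : ℝ) : ℂ)⁻¹ * ((√2 : ℝ) : ℂ)⁻¹ = (2 : ℂ)⁻¹ := by
        rw [← mul_inv, ← Complex.ofReal_mul, Real.mul_self_sqrt (by norm_num)]; norm_num
      rw [star_mul', mul_mul_mul_comm, edgeSign_sq, mul_one, star_pow, ← mul_pow, star_inv₀,
        Complex.star_def, Complex.conj_ofReal, h3]
    simp only [dotProduct, Pi.star_apply, h1]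
    simp
  · funext x
    rw [Matrix.mulVec, dotProduct, Finset.sum_eq_single (Function.update x v (x v + 1))]
    · rw [← edgeSign_flip v x, mul_left_comm]
      congr 2
      change ∏ k, sigma (gen G v k) (x k) (Function.update x v (x v + 1) k) = _
      refine Finset.prod_congr rfl fun k _ => ?_
      have s1 : ∀ a : Fin 2, sigma 1 a (a + 1) = 1 := by
        intro a; fin_cases a <;> simp [sigma]
      have s3 : ∀ a : Fin 2, sigma 3 a a = if a = 1 then -1 else 1 := by
        intro a; fin_cases a <;> simp [sigma]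
      have s0 : ∀ a : Fin 2, sigma 0 a a = 1 := by
        intro a; fin_cases a <;> simp [sigma]
      unfold gen
      by_cases hk : k = v
      · subst hk; simp [s1]
      · by_cases ha : G.Adj v k <;> simp [hk, ha, s3, s0]
    · intro y _ hy
      by_contra hne
      exact hy (gen_apply_ne (left_ne_zero_of_mul hne))
    · simp

end Pool.Agent.Lib.MP_f2ebd2_mp
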