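import Pool.Agent.Lib.MP_f2ebd2_mp.Alg

/-! Expectation values of Pauli strings and what the uniform data says about them. -/

namespace Pool.Agent.Lib.MP_f2ebd2_mp

open Matrix Complex
open scoped ComplexOrder MatrixOrder

variable {N : ℕ}

/-- Square matrices on `N` qubits. -/
abbrev Mat (N : ℕ) := Matrix (Fin N → Fin 2) (Fin N → Fin 2) ℂ

/-- `X` at `v` and `Z` on the rest of `J`. -/
def xz (v : Fin N) (J : Finset (Fin N)) : Fin N → Fin 4 :=
  fun k => if k = v then 1 else if k ∈ J then 3 else 0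

/-- The letter `c` on `J`. -/
def mono (c : Fin 4) (J : Finset (Fin N)) : Fin N → Fin 4 := fun k => if k ∈ J then c else 0

/-- Expectation value of a Pauli string. -/
noncomputable def E (τ : Mat N) (p : Fin N → Fin 4) : ℂ := (τ * pauli p).trace

lemma symOp_eq_single {a b c : ℕ} {J : Finset (Fin N)} {q : Fin N → Fin 4}
    (h : ∀ p : Fin N → Fin 4, ((Finset.univ.filter fun k => p k ≠ 0) = J ∧
      (Finset.univ.filter fun k => p k = 1).card = a ∧
      (Finset.univ.filter fun k => p k = 2).card = b ∧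
      (Finset.univ.filter fun k => p k = 3).card = c) ↔ p = q) : symOp a b c J = pauli q := by
  unfold symOp
  rw [Finset.sum_eq_single q]
  · intro p hp hpq
    exact absurd ((h p).1 (Finset.mem_filter.1 hp).2) hpq
  · intro hq
    refine absurd ?_ hq
    rw [Finset.mem_filter]
    exact ⟨Finset.mem_univ _, (h q).2 rfl⟩

lemma filter_mono_supp (c : Fin 4) (hc : c ≠ 0) (J : Finset (Fin N)) :
    (Finset.univ.filter fun k => mono c J k ≠ 0) = J := by
  ext k; by_cases hk : k ∈ J <;> simp [mono, hk, hc]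

lemma filter_mono_same (c : Fin 4) (hc : c ≠ 0) (J : Finset (Fin N)) :
    (Finset.univ.filter fun k => mono c J k = c) = J := by
  ext k; by_cases hk : k ∈ J <;> simp [mono, hk, hc.symm]

lemma filter_mono_other (c d : Fin 4) (hd : d ≠ 0) (hcd : c ≠ d) (J : Finset (Fin N)) :
    (Finset.univ.filter fun k => mono c J k = d) = ∅ := by
  ext k; by_cases hk : k ∈ J <;> simp [mono, hk, hd.symm, hcd]

lemma eq_mono {p : Fin N → Fin 4} {J : Finset (Fin N)} {c d e : Fin 4}
    (hall : ∀ x : Fin 4, x = 0 ∨ x = c ∨ x = d ∨ x = e)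
    (hs : (Finset.univ.filter fun k => p k ≠ 0) = J)
    (hd : (Finset.univ.filter fun k => p k = d).card = 0)
    (he : (Finset.univ.filter fun k => p k = e).card = 0) : p = mono c J := by
  funext k
  have h1 : p k ≠ d := by
    intro h
    rw [Finset.card_eq_zero] at hd
    have : k ∈ Finset.univ.filter fun k => p k = d := by simp [h]
    rw [hd] at this; simp at this
  have h2 : p k ≠ e := by
    intro h
    rw [Finset.card_eq_zero] at he
    have : k ∈ Finset.univ.filter fun k => p k = e := by simp [h]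
    rw [he] at this; simp at this
  have h3 : k ∈ J ↔ p k ≠ 0 := by rw [← hs]; simp
  unfold mono
  by_cases hk : k ∈ J
  · rw [if_pos hk]
    rcases hall (p k) with h | h | h | h
    · exact absurd h (h3.1 hk)
    · exact h
    · exact absurd h h1
    · exact absurd h h2
  · rw [if_neg hk]
    by_contra h
    exact hk (h3.2 h)

lemma symOp_X (J : Finset (Fin N)) : symOp J.card 0 0 J = pauli (mono 1 J) := by
  refine symOp_eq_single fun p => ⟨fun h => eq_mono (by decide) h.1 h.2.2.1 h.2.2.2, ?_⟩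
  rintro rfl
  rw [filter_mono_supp 1 (by decide), filter_mono_same 1 (by decide),
    filter_mono_other 1 2 (by decide) (by decide), filter_mono_other 1 3 (by decide) (by decide)]
  simp

lemma symOp_Y (J : Finset (Fin N)) : symOp 0 J.card 0 J = pauli (mono 2 J) := by
  refine symOp_eq_single fun p => ⟨fun h => eq_mono (by decide) h.1 h.2.1 h.2.2.2, ?_⟩
  rintro rfl
  rw [filter_mono_supp 2 (by decide), filter_mono_same 2 (by decide),
    filter_mono_other 2 1 (by decide) (by decide), filter_mono_other 2 3 (by decide) (by decide)]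
  simp

lemma symOp_Z (J : Finset (Fin N)) : symOp 0 0 J.card J = pauli (mono 3 J) := by
  refine symOp_eq_single fun p => ⟨fun h => eq_mono (by decide) h.1 h.2.1 h.2.2.1, ?_⟩
  rintro rfl
  rw [filter_mono_supp 3 (by decide), filter_mono_same 3 (by decide),
    filter_mono_other 3 1 (by decide) (by decide), filter_mono_other 3 2 (by decide) (by decide)]
  simp

lemma symOp_xz (J : Finset (Fin N)) : symOp 1 0 (J.card - 1) J = ∑ v ∈ J, pauli (xz v J) := by
  unfold symOp
  symm
  refine Finset.sum_bij (fun v _ => xz v J) ?_ ?_ ?_ (fun _ _ => rfl)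
  · intro v hv
    refine Finset.mem_filter.2 ⟨Finset.mem_univ _, ?_, ?_, ?_, ?_⟩
    · ext k
      by_cases h1 : k = v
      · subst h1; simp [xz, hv]
      · by_cases h2 : k ∈ J <;> simp [xz, h1, h2]
    · rw [Finset.card_eq_one]
      refine ⟨v, ?_⟩
      ext k
      by_cases h1 : k = v
      · subst h1; simp [xz]
      · by_cases h2 : k ∈ J <;> simp [xz, h1, h2]
    · rw [Finset.card_eq_zero]
      ext k
      by_cases h1 : k = v
      · subst h1; simp [xz]
      · by_cases h2 : k ∈ J <;> simp [xz, h1, h2]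
    · rw [← Finset.card_erase_of_mem hv]
      congr 1
      ext k
      by_cases h1 : k = v
      · subst h1; simp [xz]
      · by_cases h2 : k ∈ J <;> simp [xz, h1, h2]
  · intro v _ w _ h
    by_contra hvw
    have := congrFun h v
    by_cases h2 : v ∈ J <;> simp [xz, hvw, h2] at this
  · intro p hp
    obtain ⟨-, hs, h1, h2, -⟩ := Finset.mem_filter.1 hp
    obtain ⟨v, hv⟩ := Finset.card_eq_one.1 h1
    have hv' : ∀ k, p k = 1 ↔ k = v := by
      intro k
      have : k ∈ (Finset.univ.filter fun k => p k = 1) ↔ k ∈ ({v} : Finset (Fin N)) := by rw [hv]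
      simpa using this
    have h3 : ∀ k, k ∈ J ↔ p k ≠ 0 := by intro k; rw [← hs]; simp
    have h4 : ∀ k, p k ≠ 2 := by
      intro k h
      rw [Finset.card_eq_zero] at h2
      have : k ∈ Finset.univ.filter fun k => p k = 2 := by simp [h]
      rw [h2] at this; simp at this
    refine ⟨v, (h3 v).2 (by rw [(hv' v).2 rfl]; decide), ?_⟩
    funext k
    unfold xz
    by_cases hk : k = v
    · rw [if_pos hk, (hv' k).2 hk]
    · rw [if_neg hk]
      have h5 : p k ≠ 1 := fun h => hk ((hv' k).1 h)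
      have hall : ∀ x : Fin 4, x = 0 ∨ x = 1 ∨ x = 2 ∨ x = 3 := by decide
      by_cases hJ : k ∈ J
      · rw [if_pos hJ]
        rcases hall (p k) with h | h | h | h
        · exact absurd h ((h3 k).1 hJ)
        · exact absurd h h5
        · exact absurd h (h4 k)
        · exact h.symm
      · rw [if_neg hJ]
        by_contra h
        exact hJ ((h3 k).2 fun h' => h h'.symm)

lemma same_mono {ρ τ : Mat N} (hρ : IsDensity ρ) (hτ : IsDensity τ) (hd : SameData ρ τ)
    (c : Fin 4) (hc : c ≠ 0) (J : Finset (Fin N)) : E ρ (mono c J) = E τ (mono c J) := by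
  rcases J.eq_empty_or_nonempty with rfl | hJ
  · have : (mono c (∅ : Finset (Fin N))) = 0 := by funext k; simp [mono]
    rw [E, E, this, pauli_zero, mul_one, mul_one, hρ.2, hτ.2]
  have hall : ∀ x : Fin 4, x = 0 ∨ x = 1 ∨ x = 2 ∨ x = 3 := by decide
  rcases hall c with h | h | h | h
  · exact absurd h hc
  · subst h
    have := hd J hJ J.card 0 0 (by simp)
    rwa [symOp_X] at this
  · subst h
    have := hd J hJ 0 J.card 0 (by simp)
    rwa [symOp_Y] at this
  · subst h
    have := hd J hJ 0 0 J.card (by simp)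
    rwa [symOp_Z] at this

lemma same_xz {ρ τ : Mat N} (hd : SameData ρ τ) (J : Finset (Fin N)) :
    ∑ v ∈ J, E ρ (xz v J) = ∑ v ∈ J, E τ (xz v J) := by
  rcases J.eq_empty_or_nonempty with rfl | hJ
  · simp
  have h1 : 0 < J.card := Finset.card_pos.2 hJ
  have := hd J hJ 1 0 (J.card - 1) (by omega)
  rw [symOp_xz, Finset.mul_sum, Finset.mul_sum, Matrix.trace_sum, Matrix.trace_sum] at this
  exact this

lemma cancel_xz {ρ τ : Mat N} (hd : SameData ρ τ) {J : Finset (Fin N)} {b : Fin N} (hb : b ∈ J)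
    (h : ∀ w ∈ J, w ≠ b → E ρ (xz w J) = E τ (xz w J)) : E ρ (xz b J) = E τ (xz b J) := by
  have h1 := same_xz hd J
  rw [← Finset.add_sum_erase _ _ hb, ← Finset.add_sum_erase _ _ hb] at h1
  have h2 : ∑ w ∈ J.erase b, E ρ (xz w J) = ∑ w ∈ J.erase b, E τ (xz w J) :=
    Finset.sum_congr rfl fun w hw =>
      h w (Finset.mem_of_mem_erase hw) (Finset.ne_of_mem_erase hw)
  rw [h2] at h1
  exact add_right_cancel h1

lemma kill {ρ : Mat N} (hρ : ρ.PosSemidef) (Q : Mat N) (h : (ρ * (Qᴴ * Q)).trace = 0) :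
    Q * ρ = 0 := by
  obtain ⟨B, hB⟩ := CStarAlgebra.nonneg_iff_eq_star_mul_self.mp hρ.nonneg
  rw [Matrix.star_eq_conjTranspose] at hB
  have h1 : ((Q * Bᴴ)ᴴ * (Q * Bᴴ)).trace = 0 := by
    rw [Matrix.conjTranspose_mul, Matrix.conjTranspose_conjTranspose, ← h, hB,
      show B * Qᴴ * (Q * Bᴴ) = (B * (Qᴴ * Q)) * Bᴴ by simp only [mul_assoc],
      Matrix.trace_mul_comm, mul_assoc]
  rw [Matrix.trace_conjTranspose_mul_self_eq_zero_iff] at h1
  rw [hB, ← mul_assoc, h1, zero_mul]

lemma sq_nonneg_trace {ρ : Mat N} (hρ : ρ.PosSemidef) (Q : Mat N) :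
    0 ≤ (ρ * (Qᴴ * Q)).trace := by
  have h1 := (hρ.mul_mul_conjTranspose_same Q).trace_nonneg
  rwa [Matrix.trace_mul_comm, ← mul_assoc, Matrix.trace_mul_comm] at h1

lemma trace_one_sub {ρ : Mat N} (hρ : IsDensity ρ) (p : Fin N → Fin 4) :
    (ρ * ((1 - pauli p)ᴴ * (1 - pauli p))).trace = 2 - 2 * E ρ p := by
  rw [Matrix.conjTranspose_sub, Matrix.conjTranspose_one, pauli_herm]
  simp only [sub_mul, pauli_mul_self, mul_one, one_mul, mul_sub, Matrix.trace_sub, hρ.2, E]
  ring

lemma fix_of_E {ρ : Mat N} (hρ : IsDensity ρ) {p : Fin N → Fin 4} (h : E ρ p = 1) :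
    pauli p * ρ = ρ := by
  have h1 := kill hρ.1 (1 - pauli p) (by rw [trace_one_sub hρ, h]; ring)
  rw [sub_mul, one_mul, sub_eq_zero] at h1
  exact h1.symm

lemma fix_of_E_add {ρ : Mat N} (hρ : IsDensity ρ) {p q : Fin N → Fin 4}
    (h : E ρ p + E ρ q = 2) : pauli p * ρ = ρ := by
  have h1 := sq_nonneg_trace hρ.1 (1 - pauli p)
  have h2 := sq_nonneg_trace hρ.1 (1 - pauli q)
  have h3 : (ρ * ((1 - pauli p)ᴴ * (1 - pauli p))).trace +
      (ρ * ((1 - pauli q)ᴴ * (1 - pauli q))).trace = 0 := by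
    rw [trace_one_sub hρ, trace_one_sub hρ]; linear_combination (-2 : ℂ) * h
  have h4 := kill hρ.1 _ ((add_eq_zero_iff_of_nonneg h1 h2).1 h3).1
  rw [sub_mul, one_mul, sub_eq_zero] at h4
  exact h4.symm

lemma E_of_fix {ρ : Mat N} (hρ : IsDensity ρ) {p : Fin N → Fin 4} (h : pauli p * ρ = ρ) :
    E ρ p = 1 := by
  rw [E, Matrix.trace_mul_comm, h, hρ.2]

lemma fix_right {ρ : Mat N} (hρ : IsDensity ρ) {p : Fin N → Fin 4} (h : pauli p * ρ = ρ) :
    ρ * pauli p = ρ := by
  have := congrArg Matrix.conjTranspose h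
  rwa [Matrix.conjTranspose_mul, pauli_herm, hρ.1.1.eq] at this

lemma ph4_triv {a b : Fin 4} (h : a = 0 ∨ b = 0 ∨ a = b) : ph4 a.val b.val = 0 := by
  revert a b; decide

lemma mul4_comm (a b : Fin 4) : mul4 a b = mul4 b a := by
  revert a b; decide

lemma I_ph4_anti {a b : Fin 4} (h : a ≠ 0 ∧ b ≠ 0 ∧ a ≠ b) :
    I ^ ph4 a.val b.val = - I ^ ph4 b.val a.val := by
  have h1 : (ph4 a.val b.val = 1 ∧ ph4 b.val a.val = 3) ∨
      (ph4 a.val b.val = 3 ∧ ph4 b.val a.val = 1) := by
    revert a b; decide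
  rcases h1 with ⟨h1, h2⟩ | ⟨h1, h2⟩ <;> rw [h1, h2] <;> simp [pow_succ]

lemma mul_triv {p q : Fin N → Fin 4} (h : ∀ k, p k = 0 ∨ q k = 0 ∨ p k = q k) :
    pauli p * pauli q = pauli (fun k => mul4 (p k) (q k)) := by
  rw [pauli_mul, Finset.sum_eq_zero fun k _ => ph4_triv (h k)]
  simp

lemma anti {p q : Fin N → Fin 4} (m : Fin N) (hm : p m ≠ 0 ∧ q m ≠ 0 ∧ p m ≠ q m)
    (ho : ∀ k, k ≠ m → p k = 0 ∨ q k = 0 ∨ p k = q k) :
    pauli p * pauli q = -(pauli q * pauli p) := by
  rw [pauli_mul, pauli_mul, Finset.sum_eq_single m (fun k _ hk => ph4_triv (ho k hk)) (by simp),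
    Finset.sum_eq_single m (fun k _ hk => ph4_triv (by have := ho k hk; tauto)) (by simp),
    I_ph4_anti hm, neg_smul]
  simp only [mul4_comm (q _)]

lemma E_zero {ρ : Mat N} (hρ : IsDensity ρ) {p q : Fin N → Fin 4} (h : pauli p * ρ = ρ)
    (m : Fin N) (hm : p m ≠ 0 ∧ q m ≠ 0 ∧ p m ≠ q m)
    (ho : ∀ k, k ≠ m → p k = 0 ∨ q k = 0 ∨ p k = q k) : E ρ q = 0 := by
  have h1 : E ρ q = - E ρ q := by
    calc E ρ q = (ρ * pauli p * pauli q).trace := by rw [fix_right hρ h]; rfl
      _ = -(ρ * pauli q * pauli p).trace := by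
        rw [mul_assoc, anti m hm ho, mul_neg, Matrix.trace_neg, mul_assoc]
      _ = - E ρ q := by rw [Matrix.trace_mul_comm, ← mul_assoc, h]; rfl
  linear_combination (1 / 2 : ℂ) * h1

lemma E_mul_fix {ρ : Mat N} (hρ : IsDensity ρ) {p q : Fin N → Fin 4} (h : pauli p * ρ = ρ)
    (ho : ∀ k, p k = 0 ∨ q k = 0 ∨ p k = q k) : E ρ (fun k => mul4 (p k) (q k)) = E ρ q := by
  rw [E, ← mul_triv ho, ← mul_assoc, fix_right hρ h, E]

end Pool.Agent.Lib.MP_f2ebd2_mp
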