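import Pool.Agent.Lib.MP_f2ebd2_mp.ForestAlg

/-! The three-qubit computation at a pendant path. -/

namespace Pool.Agent.Lib.MP_f2ebd2_mp

open Matrix Complex
open scoped ComplexOrder MatrixOrder

variable {N : ℕ}

/-- The string with letters `a, b, c` at `l, m, p`. -/
def loc (l m p : Fin N) (a b c : Fin 4) : Fin N → Fin 4 :=
  fun k => if k = l then a else if k = m then b else if k = p then c else 0

lemma loc_mul {l m p : Fin N} (hlm : l ≠ m) (hlp : l ≠ p) (hmp : m ≠ p) (a b c a' b' c' : Fin 4) :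
    pauli (loc l m p a b c) * pauli (loc l m p a' b' c') =
      (I ^ (ph4 a.val a'.val + ph4 b.val b'.val + ph4 c.val c'.val)) •
        pauli (loc l m p (mul4 a a') (mul4 b b') (mul4 c c')) := by
  rw [pauli_mul]
  congr 2
  · have h : ∀ k, ph4 (loc l m p a b c k).val (loc l m p a' b' c' k).val =
        (if k = l then ph4 a.val a'.val else 0) + (if k = m then ph4 b.val b'.val else 0) +
          (if k = p then ph4 c.val c'.val else 0) := by
      intro k
      unfold loc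
      by_cases h1 : k = l
      · subst h1; simp [hlm, hlp]
      by_cases h2 : k = m
      · subst h2; simp [h1, hmp]
      by_cases h3 : k = p
      · subst h3; simp [h1, h2]
      simp [h1, h2, h3, ph4]
    simp only [h, Finset.sum_add_distrib, Finset.sum_ite_eq', Finset.mem_univ, if_true]
  · funext k
    unfold loc
    split_ifs <;> rfl

lemma loc_zero (l m p : Fin N) : pauli (loc l m p 0 0 0) = 1 := by
  rw [← pauli_zero]; congr 1; funext k; simp [loc]

section
variable {l m p : Fin N} (hlm : l ≠ m) (hlp : l ≠ p) (hmp : m ≠ p)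
include hlm hlp hmp

lemma loc_mul' (a b c a' b' c' a'' b'' c'' : Fin 4) (n : ℕ)
    (h : ph4 a.val a'.val + ph4 b.val b'.val + ph4 c.val c'.val = n ∧
      mul4 a a' = a'' ∧ mul4 b b' = b'' ∧ mul4 c c' = c'') :
    pauli (loc l m p a b c) * pauli (loc l m p a' b' c') = (I ^ n) • pauli (loc l m p a'' b'' c'') := by
  rw [loc_mul hlm hlp hmp, h.1, h.2.1, h.2.2.1, h.2.2.2]

/-- If `Q = (1 - XZ)(1 - ZX)` kills a density matrix, then `YYZ` is determined by symmetric data. -/
lemma yyz_formula {σ : Mat N} (hσ : IsDensity σ)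
    (hQ : (1 - pauli (loc l m p 1 3 0) - pauli (loc l m p 3 1 0) + pauli (loc l m p 2 2 0)) * σ = 0) :
    E σ (loc l m p 2 2 3) = E σ (loc l m p 1 3 3) + E σ (loc l m p 3 1 3) + E σ (loc l m p 3 3 1) -
      E σ (loc l m p 1 1 1) - E σ (loc l m p 0 0 3) := by
  set Q := 1 - pauli (loc l m p 1 3 0) - pauli (loc l m p 3 1 0) + pauli (loc l m p 2 2 0) with hQd
  have hQH : Qᴴ = Q := by
    simp only [hQd, Matrix.conjTranspose_add, Matrix.conjTranspose_sub, Matrix.conjTranspose_one,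
      pauli_herm]
  have hQ' : σ * Q = 0 := by
    have := congrArg Matrix.conjTranspose hQ
    rwa [Matrix.conjTranspose_mul, hQH, hσ.1.1.eq, Matrix.conjTranspose_zero] at this
  have h1 : (σ * (Q * pauli (loc l m p 0 0 3))).trace = 0 := by
    rw [← mul_assoc, hQ', zero_mul, Matrix.trace_zero]
  have h2 : (σ * (Q * pauli (loc l m p 3 3 1))).trace = 0 := by
    rw [← mul_assoc, hQ', zero_mul, Matrix.trace_zero]
  have h3 : (σ * (pauli (loc l m p 3 3 1) * Q)).trace = 0 := by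
    rw [← mul_assoc, Matrix.trace_mul_comm, ← mul_assoc, hQ, zero_mul, Matrix.trace_zero]
  rw [hQd, add_mul, sub_mul, sub_mul, one_mul,
    loc_mul' hlm hlp hmp 1 3 0 0 0 3 1 3 3 0 (by decide),
    loc_mul' hlm hlp hmp 3 1 0 0 0 3 3 1 3 0 (by decide),
    loc_mul' hlm hlp hmp 2 2 0 0 0 3 2 2 3 0 (by decide)] at h1
  rw [hQd, add_mul, sub_mul, sub_mul, one_mul,
    loc_mul' hlm hlp hmp 1 3 0 3 3 1 2 0 1 3 (by decide),
    loc_mul' hlm hlp hmp 3 1 0 3 3 1 0 2 1 3 (by decide),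
    loc_mul' hlm hlp hmp 2 2 0 3 3 1 1 1 1 2 (by decide)] at h2
  rw [hQd, mul_add, mul_sub, mul_sub, mul_one,
    loc_mul' hlm hlp hmp 3 3 1 1 3 0 2 0 1 1 (by decide),
    loc_mul' hlm hlp hmp 3 3 1 3 1 0 0 2 1 1 (by decide),
    loc_mul' hlm hlp hmp 3 3 1 2 2 0 1 1 1 6 (by decide)] at h3
  have i2 : I ^ 2 = -1 := I_sq
  have i3 : I ^ 3 = -I := by rw [pow_succ, i2]; ring
  have i6 : I ^ 6 = -1 := by rw [show 6 = 2 + 2 + 2 from rfl, pow_add, pow_add, i2]; ring
  simp only [mul_add, mul_sub, Matrix.mul_smul, Matrix.trace_add, Matrix.trace_sub,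
    Matrix.trace_smul, smul_eq_mul, pow_zero, pow_one, one_mul, i2, i3, i6] at h1 h2 h3
  simp only [E]
  linear_combination h1 - (1 / 2 : ℂ) * h2 - (1 / 2 : ℂ) * h3

lemma Q_sq : (1 - pauli (loc l m p 1 3 0) - pauli (loc l m p 3 1 0) + pauli (loc l m p 2 2 0)) *
    (1 - pauli (loc l m p 1 3 0) - pauli (loc l m p 3 1 0) + pauli (loc l m p 2 2 0)) =
    (4 : ℂ) • (1 - pauli (loc l m p 1 3 0) - pauli (loc l m p 3 1 0) + pauli (loc l m p 2 2 0)) := by
  have i4 : I ^ 4 = 1 := I_pow_four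
  simp only [add_mul, sub_mul, mul_add, mul_sub, one_mul, mul_one, pauli_mul_self,
    loc_mul' hlm hlp hmp 1 3 0 3 1 0 2 2 0 4 (by decide),
    loc_mul' hlm hlp hmp 3 1 0 1 3 0 2 2 0 4 (by decide),
    loc_mul' hlm hlp hmp 1 3 0 2 2 0 3 1 0 4 (by decide),
    loc_mul' hlm hlp hmp 2 2 0 1 3 0 3 1 0 4 (by decide),
    loc_mul' hlm hlp hmp 3 1 0 2 2 0 1 3 0 4 (by decide),
    loc_mul' hlm hlp hmp 2 2 0 3 1 0 1 3 0 4 (by decide), i4, one_smul]
  module

lemma Q_of_fix {τ : Mat N} (h : pauli (loc l m p 1 3 0) * τ = τ) :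
    (1 - pauli (loc l m p 1 3 0) - pauli (loc l m p 3 1 0) + pauli (loc l m p 2 2 0)) * τ = 0 := by
  have i4 : I ^ 4 = 1 := I_pow_four
  have h1 := loc_mul' hlm hlp hmp 3 1 0 1 3 0 2 2 0 4 (by decide)
  rw [i4, one_smul] at h1
  rw [add_mul, sub_mul, sub_mul, one_mul, h, ← h1, mul_assoc, h]
  abel

lemma loc_class2 (σ : Mat N) : ∑ v ∈ ({l, m} : Finset (Fin N)), E σ (xz v {l, m}) =
    E σ (loc l m p 1 3 0) + E σ (loc l m p 3 1 0) := by
  rw [Finset.sum_pair hlm]
  congr 2 <;> funext k <;> unfold xz loc <;> by_cases h1 : k = l <;> by_cases h2 : k = m <;>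
    simp_all

lemma loc_class3 (σ : Mat N) : ∑ v ∈ ({l, m, p} : Finset (Fin N)), E σ (xz v {l, m, p}) =
    E σ (loc l m p 1 3 3) + E σ (loc l m p 3 1 3) + E σ (loc l m p 3 3 1) := by
  rw [Finset.sum_insert (by simp [hlm, hlp]), Finset.sum_pair hmp, add_assoc]
  congr 2
  · funext k; unfold xz loc
    by_cases h1 : k = l <;> by_cases h2 : k = m <;> by_cases h3 : k = p <;> simp_all
  · congr 1; funext k; unfold xz loc
    by_cases h1 : k = l <;> by_cases h2 : k = m <;> by_cases h3 : k = p <;> simp_all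
  · congr 1; funext k; unfold xz loc
    by_cases h1 : k = l <;> by_cases h2 : k = m <;> by_cases h3 : k = p <;> simp_all

/-- The key step at a pendant path: `YYZ` has the same expectation in both states. -/
lemma yyz_same {ρ τ : Mat N} (hρ : IsDensity ρ) (hτ : IsDensity τ) (hd : SameData ρ τ)
    (h : pauli (loc l m p 1 3 0) * τ = τ) : E ρ (loc l m p 2 2 3) = E τ (loc l m p 2 2 3) := by
  have e1 : loc l m p 2 2 0 = mono 2 {l, m} := by
    funext k; unfold mono loc
    by_cases h1 : k = l <;> by_cases h2 : k = m <;> simp_all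
  have e2 : loc l m p 1 1 1 = mono 1 {l, m, p} := by
    funext k; unfold mono loc
    by_cases h1 : k = l <;> by_cases h2 : k = m <;> by_cases h3 : k = p <;> simp_all
  have e3 : loc l m p 0 0 3 = mono 3 {p} := by
    funext k; unfold mono loc
    by_cases h1 : k = l <;> by_cases h2 : k = m <;> by_cases h3 : k = p <;> simp_all
  have d1 := same_mono hρ hτ hd 2 (by decide) {l, m}
  have d2 := same_mono hρ hτ hd 1 (by decide) {l, m, p}
  have d3 := same_mono hρ hτ hd 3 (by decide) {p}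
  rw [← e1] at d1
  rw [← e2] at d2
  rw [← e3] at d3
  have d4 := same_xz hd {l, m}
  have d5 := same_xz hd {l, m, p}
  rw [loc_class2 hlm hlp hmp, loc_class2 hlm hlp hmp] at d4
  rw [loc_class3 hlm hlp hmp, loc_class3 hlm hlp hmp] at d5
  have hQτ := Q_of_fix hlm hlp hmp h
  set Q := 1 - pauli (loc l m p 1 3 0) - pauli (loc l m p 3 1 0) + pauli (loc l m p 2 2 0) with hQd
  have hQH : Qᴴ = Q := by
    simp only [hQd, Matrix.conjTranspose_add, Matrix.conjTranspose_sub, Matrix.conjTranspose_one,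
      pauli_herm]
  have htr : ∀ σ : Mat N, IsDensity σ → (σ * Q).trace =
      1 - (E σ (loc l m p 1 3 0) + E σ (loc l m p 3 1 0)) + E σ (loc l m p 2 2 0) := by
    intro σ hσ
    simp only [hQd, mul_add, mul_sub, mul_one, Matrix.trace_add, Matrix.trace_sub, hσ.2, E]
    ring
  have h0 : (ρ * Q).trace = 0 := by
    rw [htr ρ hρ, d4, d1, ← htr τ hτ, Matrix.trace_mul_comm, hQτ, Matrix.trace_zero]
  have hQρ : Q * ρ = 0 := by
    refine kill hρ.1 Q ?_
    rw [hQH, hQd, Q_sq hlm hlp hmp, ← hQd, Matrix.mul_smul, Matrix.trace_smul, h0, smul_zero]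
  rw [yyz_formula hlm hlp hmp hρ hQρ, yyz_formula hlm hlp hmp hτ hQτ, d5, d2, d3]

end

end Pool.Agent.Lib.MP_f2ebd2_mp
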