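import Pool.Agent.Lib.MP_f2ebd2_mp.GenericPoly

/-! A pure state with no direction along which both constant outcomes are impossible is uniformly
certifiable among all density matrices. -/

namespace Pool.Agent.Lib.MP_f2ebd2_mp

open Matrix Complex Polynomial
open scoped ComplexOrder MatrixOrder

variable {N : ℕ}

/-- The vector `b` minus its amplitude times the reference vector. -/
noncomputable def dev (ψ b0 b : (Fin N → Fin 2) → ℂ) : (Fin N → Fin 2) → ℂ := b - (star ψ ⬝ᵥ b) • b0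

/-- The linear map `b ↦ ρ (dev b)`. -/
noncomputable def Dv (ρ : Mat N) (ψ b0 : (Fin N → Fin 2) → ℂ) :
    ((Fin N → Fin 2) → ℂ) →ₗ[ℂ] ((Fin N → Fin 2) → ℂ) where
  toFun b := ρ *ᵥ dev ψ b0 b
  map_add' a b := by
    rw [← Matrix.mulVec_add]
    congr 1
    simp only [dev, dotProduct_add, add_smul]
    abel
  map_smul' c b := by
    rw [RingHom.id_apply, ← Matrix.mulVec_smul]
    congr 1
    simp only [dev, dotProduct_smul, smul_sub, smul_smul, smul_eq_mul]

lemma pv_empty (q q' p : Fin 2 → ℂ) : pv (∅ : Finset (Fin N)) q p = pv ∅ q' p := by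
  funext y; simp [pv]

lemma Dv_apply (ρ : Mat N) (ψ b0 b : (Fin N → Fin 2) → ℂ) : Dv ρ ψ b0 b = ρ *ᵥ dev ψ b0 b := rfl

lemma herm_dot {ρ : Mat N} (hρ : ρ.IsHermitian) (u b : (Fin N → Fin 2) → ℂ) :
    star u ⬝ᵥ ρ *ᵥ b = star (ρ *ᵥ u) ⬝ᵥ b := by
  rw [Matrix.star_mulVec, hρ.eq, Matrix.dotProduct_mulVec]

lemma star_dot (u b : (Fin N → Fin 2) → ℂ) : star (star u ⬝ᵥ b) = star b ⬝ᵥ u := by
  rw [Matrix.star_dotProduct, star_star]

lemma expand {ρ : Mat N} (hρ : ρ.IsHermitian) {ψ b0 : (Fin N → Fin 2) → ℂ}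
    (hbb : star b0 ⬝ᵥ ρ *ᵥ b0 = 1) (u b : (Fin N → Fin 2) → ℂ)
    (h : star u ⬝ᵥ ρ *ᵥ b = star (star ψ ⬝ᵥ u) * (star ψ ⬝ᵥ b)) :
    star (star ψ ⬝ᵥ u) * (star b0 ⬝ᵥ Dv ρ ψ b0 b) +
      (star ψ ⬝ᵥ b) * star (star b0 ⬝ᵥ Dv ρ ψ b0 u) + star (dev ψ b0 u) ⬝ᵥ Dv ρ ψ b0 b = 0 := by
  have h1 : star (star b0 ⬝ᵥ Dv ρ ψ b0 u) = star (dev ψ b0 u) ⬝ᵥ ρ *ᵥ b0 := by
    rw [star_dot, Dv_apply, ← herm_dot hρ]
  rw [h1]
  simp only [Dv_apply, dev, star_sub, star_smul, Matrix.mulVec_sub, Matrix.mulVec_smul,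
    sub_dotProduct, dotProduct_sub, smul_dotProduct, dotProduct_smul, smul_eq_mul, hbb, h]
  ring

lemma scale_step {ρ : Mat N} {ψ b0 : (Fin N → Fin 2) → ℂ} {S : Finset (Fin N)} {p : Fin 2 → ℂ}
    (ih : ∀ T ⊂ S, ∀ q, Dv ρ ψ b0 (pv T q p) = 0) (a b : ℂ) (q : Fin 2 → ℂ) :
    Dv ρ ψ b0 (pv S (a • p + b • q) p) = b ^ S.card • Dv ρ ψ b0 (pv S q p) := by
  rw [pv_add, map_sum, Finset.sum_eq_single S]
  · simp
  · intro T hT hTS
    rw [map_smul, ih T (Finset.ssubset_iff_subset_ne.2 ⟨Finset.mem_powerset.1 hT, hTS⟩), smul_zero]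
  · simp

section
variable {ρ : Mat N} (hρ : ρ.PosSemidef) {ψ b0 : (Fin N → Fin 2) → ℂ}
  (hbb : star b0 ⬝ᵥ ρ *ᵥ b0 = 1)
  (hD : ∀ (S : Finset (Fin N)) (p g : Fin 2 → ℂ),
    star (pv S (J (star p)) g) ⬝ᵥ ρ *ᵥ pv S (J (star g)) p =
      star (star ψ ⬝ᵥ pv S (J (star p)) g) * (star ψ ⬝ᵥ pv S (J (star g)) p))
include hρ hbb hD

lemma Dv_of_mu {S : Finset (Fin N)} {p : Fin 2 → ℂ}
    (h : star b0 ⬝ᵥ Dv ρ ψ b0 (pv S (J (star p)) p) = 0) : Dv ρ ψ b0 (pv S (J (star p)) p) = 0 := by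
  have h1 := expand hρ.1 hbb _ _ (hD S p p)
  rw [h, star_zero, mul_zero, mul_zero, add_zero, zero_add] at h1
  exact (hρ.dotProduct_mulVec_zero_iff _).1 h1

lemma limit_eq {S : Finset (Fin N)} (hS : S.Nonempty)
    (ih : ∀ T ⊂ S, ∀ p q : Fin 2 → ℂ, p 0 ≠ 0 → Dv ρ ψ b0 (pv T q p) = 0) (t : ℂ) :
    star (star ψ ⬝ᵥ pv S ![-star t, 1] ![star t, -1]) * (star b0 ⬝ᵥ Dv ρ ψ b0 (pv S ![0, 1] ![1, t])) +
      (star ψ ⬝ᵥ pv S ![1, t] ![1, t]) *
        star (star b0 ⬝ᵥ Dv ρ ψ b0 (pv S ![1, 0] ![star t, -1])) = 0 := by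
  set F : ℂ → ℂ := fun a =>
    star (star ψ ⬝ᵥ pv S ![-star t, 1] ![star a, -1]) * (star b0 ⬝ᵥ Dv ρ ψ b0 (pv S ![0, 1] ![1, t])) +
      (star ψ ⬝ᵥ pv S ![1, a] ![1, t]) *
        star (star b0 ⬝ᵥ Dv ρ ψ b0 (pv S ![1, 0] ![star a, -1])) +
      (a - t) ^ S.card *
        (star (Dv ρ ψ b0 (pv S ![1, 0] ![star a, -1])) ⬝ᵥ dev ψ b0 (pv S ![0, 1] ![1, t])) with hF
  have hc1 : Continuous fun a : ℂ => (![star a, -1] : Fin 2 → ℂ) :=
    continuous_pi fun b => by fin_cases b <;> simp <;> fun_prop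
  have hc2 : Continuous fun a : ℂ => (![1, a] : Fin 2 → ℂ) :=
    continuous_pi fun b => by fin_cases b <;> simp <;> fun_prop
  have hc3 : Continuous fun a : ℂ => Dv ρ ψ b0 (pv S ![1, 0] ![star a, -1]) :=
    (Dv ρ ψ b0).continuous_of_finiteDimensional.comp (continuous_pv S continuous_const hc1)
  have hcont : Continuous F := by
    refine (Continuous.add ?_ ?_).add ?_
    · exact (continuous_const.dotProduct (continuous_pv S continuous_const hc1)).star.mul
        continuous_const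
    · exact (continuous_const.dotProduct (continuous_pv S hc2 continuous_const)).mul
        (continuous_const.dotProduct hc3).star
    · exact ((continuous_id.sub continuous_const).pow _).mul (hc3.star.dotProduct continuous_const)
  have hz : F = fun _ => 0 := by
    refine Continuous.ext_on (((Set.finite_singleton t).insert 0).countable.dense_compl ℂ) hcont
      continuous_const fun a ha => ?_
    simp only [Set.mem_compl_iff, Set.mem_insert_iff, Set.mem_singleton_iff, not_or] at ha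
    have e1 : J (star ![1, t]) = ![-star t, 1] := by
      funext b; fin_cases b <;> simp [J]
    have e2 : J (star ![star a, -1]) = ![1, a] := by
      funext b; fin_cases b <;> simp [J]
    have h1 := expand hρ.1 hbb _ _ (hD S ![1, t] ![star a, -1])
    rw [e1, e2] at h1
    have e3 : (![1, a] : Fin 2 → ℂ) = (1 : ℂ) • ![1, t] + (a - t) • ![0, 1] := by
      funext b; fin_cases b <;> simp
    have e4 : (![-star t, 1] : Fin 2 → ℂ) = (-1 : ℂ) • ![star a, -1] + star (a - t) • ![1, 0] := by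
      funext b; fin_cases b
      · simp; ring
      · simp
    have s1 : Dv ρ ψ b0 (pv S ![1, a] ![1, t]) =
        (a - t) ^ S.card • Dv ρ ψ b0 (pv S ![0, 1] ![1, t]) := by
      rw [e3]; exact scale_step (fun T hT q => ih T hT _ q (by simp)) _ _ _
    have s2 : Dv ρ ψ b0 (pv S ![-star t, 1] ![star a, -1]) =
        star (a - t) ^ S.card • Dv ρ ψ b0 (pv S ![1, 0] ![star a, -1]) := by
      rw [e4]; exact scale_step (fun T hT q => ih T hT _ q (by simpa using ha.1)) _ _ _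
    rw [s1, dotProduct_smul, dotProduct_smul, Dv_apply ρ ψ b0 (pv S ![0, 1] ![1, t]),
      herm_dot hρ.1 (dev ψ b0 _), ← Dv_apply, ← Dv_apply, s2] at h1
    simp only [dotProduct_smul, star_smul, smul_dotProduct, star_pow, star_star, smul_eq_mul,
      star_mul'] at h1
    have h2 : (a - t) ^ S.card ≠ 0 := pow_ne_zero _ (sub_ne_zero.2 ha.2)
    refine mul_left_cancel₀ h2 ?_
    simp only [hF]
    linear_combination h1
  have h3 := congrFun hz t
  simp only [hF, sub_self, zero_pow (Finset.card_pos.2 hS).ne', zero_mul, add_zero] at h3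
  exact h3

lemma all_Dv (hb0 : ∀ p q, star b0 ⬝ᵥ Dv ρ ψ b0 (pv ∅ q p) = 0)
    (hψ : ∀ t : ℂ, star ψ ⬝ᵥ pv ∅ 0 ![1, t] ≠ 0 ∨ ψ ⬝ᵥ pv ∅ 0 ![t, -1] ≠ 0)
    (S : Finset (Fin N)) : ∀ p q : Fin 2 → ℂ, p 0 ≠ 0 → Dv ρ ψ b0 (pv S q p) = 0 := by
  induction S using Finset.strongInduction with
  | H S ih =>
  rcases S.eq_empty_or_nonempty with rfl | hS
  · intro p q _
    rw [pv_empty q (J (star p)) p]
    exact Dv_of_mu hρ hbb hD (S := ∅) (p := p) (hb0 p (J (star p)))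
  set m : (Fin N → Fin 2) → ℂ := star b0 ᵥ* ρ - star ψ with hm
  have hμ : ∀ b, star b0 ⬝ᵥ Dv ρ ψ b0 b = m ⬝ᵥ b := by
    intro b
    rw [Dv_apply, dev, Matrix.mulVec_sub, Matrix.mulVec_smul, dotProduct_sub, dotProduct_smul, hbb,
      hm, sub_dotProduct, Matrix.dotProduct_mulVec, smul_eq_mul, mul_one]
  have ev1 : ∀ t : ℂ, (fun b => ((![1, X] : Fin 2 → ℂ[X]) b).eval t) = ![1, t] := by
    intro t; funext b; fin_cases b <;> simp
  have ev2 : ∀ t : ℂ, (fun b => ((![X, -1] : Fin 2 → ℂ[X]) b).eval t) = ![t, -1] := by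
    intro t; funext b; fin_cases b <;> simp
  have ev3 : ∀ t : ℂ, (fun b => ((![0, 1] : Fin 2 → ℂ[X]) b).eval t) = ![0, 1] := by
    intro t; funext b; fin_cases b <;> simp
  have ev4 : ∀ t : ℂ, (fun b => ((![1, 0] : Fin 2 → ℂ[X]) b).eval t) = ![1, 0] := by
    intro t; funext b; fin_cases b <;> simp
  have ev0 : ∀ t : ℂ, (fun b => ((0 : Fin 2 → ℂ[X]) b).eval t) = 0 := by
    intro t; funext b; simp
  have hzero : pp m S ![0, 1] ![1, X] = 0 := by
    refine poly_step (N := N) (c := pp (star ψ) ∅ 0 ![1, X]) (c' := pp ψ ∅ 0 ![X, -1])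
      (h' := pp (star m) S ![1, 0] ![X, -1]) (ε := (-1) ^ S.card) (by simp) (fun t => ?_) ?_ ?_ ?_
      fun t _ => ?_
    · rw [eval_pp, eval_pp, ev0, ev1, ev2]; exact hψ t
    · rw [coeff_pp_top _ _ _ 1 rfl (by intro c; fin_cases c <;> simp),
        coeff_pp_top _ _ _ 0 rfl (by intro c; fin_cases c <;> simp)]
      rcases hψ 0 with h | h
      · right
        have := ne_zero_of_pv (b := 0) (by intro c; fin_cases c <;> simp) h
        simpa using this
      · left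
        have := ne_zero_of_pv (b := 1) (by intro c; fin_cases c <;> simp) h
        simpa using this
    · exact natDegree_pp_lt _ hS (by intro c; fin_cases c <;> simp)
        (by intro c; fin_cases c <;> simp)
    · exact natDegree_pp_lt _ hS (by intro c; fin_cases c <;> simp)
        (by intro c; fin_cases c <;> simp)
    · have h1 := limit_eq hρ hbb hD hS ih t
      have e1 : (![-star t, 1] : Fin 2 → ℂ) = (-1 : ℂ) • ![star t, -1] := by
        funext b; fin_cases b <;> simp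
      have e2 : pv S ![1, t] ![1, t] = pv ∅ 0 ![1, t] := by
        have := pv_same S 1 0 ![1, t]
        simpa using this
      have e3 : star (![star t, -1] : Fin 2 → ℂ) = ![t, -1] := by
        funext b; fin_cases b <;> simp
      have e4 : star (![1, 0] : Fin 2 → ℂ) = ![1, 0] := by
        funext b; fin_cases b <;> simp
      have e5 : ∀ u v : (Fin N → Fin 2) → ℂ, star (u ⬝ᵥ v) = star u ⬝ᵥ star v := by
        intro u v
        rw [Matrix.star_dotProduct_star, dotProduct_comm]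
      rw [e1, pv_same S (-1) 0, e2, hμ, hμ, e5, e5, star_smul, star_pv, star_pv, e3, e4, star_star,
        star_zero, dotProduct_smul] at h1
      rw [eval_pp, eval_pp, eval_pp, eval_pp, ev0, ev1, ev2, ev3, ev4]
      simpa using h1
  have hn : ∀ p : Fin 2 → ℂ, p 0 ≠ 0 → star b0 ⬝ᵥ Dv ρ ψ b0 (pv S ![0, 1] p) = 0 := by
    intro p hp
    have e1 : p = p 0 • ![1, p 1 / p 0] := by
      funext b; fin_cases b <;> simp [mul_div_cancel₀ _ hp]
    have h1 := eval_pp m S ![0, 1] ![1, X] (p 1 / p 0)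
    rw [hzero, eval_zero, ev1, ev3] at h1
    rw [e1, pv_smul, hμ, dotProduct_smul, ← h1, smul_zero]
  have hq : ∀ p q : Fin 2 → ℂ, p 0 ≠ 0 → Dv ρ ψ b0 (pv S q p) =
      (q 1 - q 0 / p 0 * p 1) ^ S.card • Dv ρ ψ b0 (pv S ![0, 1] p) := by
    intro p q hp
    have e1 : q = (q 0 / p 0) • p + (q 1 - q 0 / p 0 * p 1) • ![0, 1] := by
      funext b; fin_cases b <;> simp [div_mul_cancel₀ _ hp]
    rw [← scale_step (fun T hT q => ih T hT p q hp), ← e1]
  intro p q hp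
  have h1 : Dv ρ ψ b0 (pv S (J (star p)) p) = 0 :=
    Dv_of_mu hρ hbb hD (by rw [hq _ _ hp, dotProduct_smul, hn p hp, smul_zero])
  rw [hq _ _ hp] at h1
  have h2 : J (star p) 1 - J (star p) 0 / p 0 * p 1 ≠ 0 := by
    intro h
    have h3 : ((Complex.normSq (p 0) + Complex.normSq (p 1) : ℝ) : ℂ) = 0 := by
      simp only [J, Pi.star_apply, Matrix.cons_val_one, Matrix.cons_val_zero, Complex.star_def] at h
      push_cast
      rw [Complex.normSq_eq_conj_mul_self, Complex.normSq_eq_conj_mul_self]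
      field_simp at h
      linear_combination h
    have h4 := Complex.normSq_pos.2 hp
    have h5 := Complex.normSq_nonneg (p 1)
    have h6 := Complex.ofReal_eq_zero.1 h3
    linarith
  rw [hq _ _ hp, (smul_eq_zero.1 h1).resolve_left (pow_ne_zero _ h2), smul_zero]

end

theorem generic_certifiable {ψ : (Fin N → Fin 2) → ℂ} (hu : star ψ ⬝ᵥ ψ = 1)
    (hψ : ∀ t : ℂ, star ψ ⬝ᵥ pv ∅ 0 ![1, t] ≠ 0 ∨ ψ ⬝ᵥ pv ∅ 0 ![t, -1] ≠ 0) :
    Certifiable {ρ | IsDensity ρ} ψ := by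
  intro ρ hρ hd
  have hτ : IsDensity (proj ψ) := ⟨Matrix.posSemidef_vecMulVec_self_star ψ, by
    rw [proj, Matrix.trace_vecMulVec, dotProduct_comm, hu]⟩
  have hD : ∀ (S : Finset (Fin N)) (p g : Fin 2 → ℂ),
      star (pv S (J (star p)) g) ⬝ᵥ ρ *ᵥ pv S (J (star g)) p =
        star (star ψ ⬝ᵥ pv S (J (star p)) g) * (star ψ ⬝ᵥ pv S (J (star g)) p) := by
    intro S p g
    have e1 : star (J (star p)) = J p := by
      funext b; fin_cases b <;> simp [J]
    rw [star_dot, star_pv, e1, same_pv hρ hτ hd, proj, Matrix.vecMulVec_mulVec, dotProduct_smul]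
    simp
  obtain ⟨p0, hp0⟩ : ∃ p0 : Fin 2 → ℂ, star ψ ⬝ᵥ pv ∅ 0 p0 ≠ 0 := by
    rcases hψ 0 with h | h
    · exact ⟨_, h⟩
    · refine ⟨star ![0, -1], fun h0 => h ?_⟩
      have := congrArg star h0
      rwa [star_dot, star_pv, star_star, star_zero, star_zero, dotProduct_comm] at this
  set c := star ψ ⬝ᵥ pv ∅ 0 p0 with hc
  set b0 : (Fin N → Fin 2) → ℂ := c⁻¹ • pv ∅ 0 p0 with hb0
  have h0 : ∀ p q, star b0 ⬝ᵥ ρ *ᵥ pv ∅ q p = star ψ ⬝ᵥ pv ∅ q p := by
    intro p q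
    have h1 : star (pv ∅ 0 p0) ⬝ᵥ ρ *ᵥ pv ∅ q p = star c * (star ψ ⬝ᵥ pv ∅ q p) := by
      have := hD ∅ p p0
      rwa [pv_empty _ 0 p0, pv_empty _ q p] at this
    rw [hb0, star_smul, smul_dotProduct, h1, smul_eq_mul, ← mul_assoc, ← star_mul',
      inv_mul_cancel₀ hp0, star_one, one_mul]
  have hbb : star b0 ⬝ᵥ ρ *ᵥ b0 = 1 := by
    nth_rewrite 2 [hb0]
    rw [Matrix.mulVec_smul, dotProduct_smul, h0, smul_eq_mul, inv_mul_cancel₀ hp0]
  have hall := all_Dv hρ.1 hbb hD (fun p q => by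
    rw [Dv_apply, dev, Matrix.mulVec_sub, Matrix.mulVec_smul, dotProduct_sub, dotProduct_smul, hbb,
      h0, smul_eq_mul, mul_one, sub_self]) hψ
  set r := ρ *ᵥ b0 with hr
  have hent : ∀ i y, ρ i y = r i * star (ψ y) := by
    intro i y
    have h1 := hall (Finset.univ.filter fun k => y k = 1) ![1, 0] ![0, 1] (by simp)
    rw [← single_eq_pv, Dv_apply, dev, Matrix.mulVec_sub, Matrix.mulVec_smul, sub_eq_zero] at h1
    have h2 := congrFun h1 i
    simpa [mul_comm] using h2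
  have hent' : ∀ i y, ρ i y = ψ i * star (r y) := by
    intro i y
    rw [← hρ.1.1.apply i y, hent y i, star_mul', star_star, mul_comm]
  have hrψ : ∀ i, r i = ψ i * (star r ⬝ᵥ ψ) := by
    intro i
    have h1 : ∑ y, ρ i y * ψ y = r i := by
      simp only [hent, mul_assoc, ← Finset.mul_sum]
      rw [show ∑ y, star (ψ y) * ψ y = 1 from hu, mul_one]
    rw [← h1]
    simp only [hent', mul_assoc, ← Finset.mul_sum]
    rfl
  have hρ' : ρ = (star r ⬝ᵥ ψ) • proj ψ := by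
    ext i y
    rw [hent, hrψ i]
    simp only [proj, Matrix.smul_apply, Matrix.vecMulVec_apply, Pi.star_apply, smul_eq_mul]
    ring
  have h1 := hρ.2
  rw [hρ', Matrix.trace_smul, hτ.2, smul_eq_mul, mul_one] at h1
  rw [hρ', h1, one_smul]

theorem certifiable_of_unitary {ψ : (Fin N → Fin 2) → ℂ} (hu : star ψ ⬝ᵥ ψ = 1)
    (h : ∀ U ∈ Matrix.unitaryGroup (Fin 2) ℂ,
      ∑ x, (∏ k, U 0 (x k)) * ψ x ≠ 0 ∨ ∑ x, (∏ k, U 1 (x k)) * ψ x ≠ 0) :
    Certifiable {ρ | IsDensity ρ} ψ := by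
  refine generic_certifiable hu fun t => ?_
  set r : ℝ := √(1 + Complex.normSq t) with hr
  have hpos : 0 < 1 + Complex.normSq t := by have := Complex.normSq_nonneg t; linarith
  have hr0 : (r : ℂ) ≠ 0 := Complex.ofReal_ne_zero.2 (Real.sqrt_pos.2 hpos).ne'
  have hr2 : (r : ℂ) * r = 1 + star t * t := by
    rw [← Complex.ofReal_mul, hr, Real.mul_self_sqrt hpos.le]
    push_cast
    rw [Complex.normSq_eq_conj_mul_self]; rfl
  have hU : (r : ℂ)⁻¹ • !![1, star t; t, -1] ∈ Matrix.unitaryGroup (Fin 2) ℂ := by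
    rw [Matrix.mem_unitaryGroup_iff]
    rw [Complex.star_def] at hr2
    ext i j
    fin_cases i <;> fin_cases j <;>
      simp [Matrix.mul_apply, Fin.sum_univ_two, Matrix.star_apply] <;> field_simp <;>
      first
        | ring1
        | linear_combination -hr2
  have e : ∀ u : Fin 2 → ℂ, ∑ x, (∏ k, ((r : ℂ)⁻¹ • u) (x k)) * ψ x =
      (r : ℂ)⁻¹ ^ (∅ : Finset (Fin N))ᶜ.card * (ψ ⬝ᵥ pv ∅ 0 u) := by
    intro u
    rw [← smul_eq_mul, ← dotProduct_smul, ← pv_smul, dotProduct]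
    refine Finset.sum_congr rfl fun x _ => ?_
    simp [pv, mul_comm]
  rcases h _ hU with h1 | h1
  · left
    have e1 : ((r : ℂ)⁻¹ • !![1, star t; t, -1]) 0 = (r : ℂ)⁻¹ • ![1, star t] := by
      funext b; fin_cases b <;> simp
    rw [e1, e] at h1
    intro h0
    apply right_ne_zero_of_mul h1
    have h2 := congrArg star h0
    have e2 : star (![1, t] : Fin 2 → ℂ) = ![1, star t] := by
      funext b; fin_cases b <;> simp
    rwa [star_dot, star_pv, star_zero, star_zero, e2, dotProduct_comm] at h2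
  · right
    have e1 : ((r : ℂ)⁻¹ • !![1, star t; t, -1]) 1 = (r : ℂ)⁻¹ • ![t, -1] := by
      funext b; fin_cases b <;> simp
    rw [e1, e] at h1
    exact right_ne_zero_of_mul h1

end Pool.Agent.Lib.MP_f2ebd2_mp
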