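import Pool.Agent.Lib.MP_f2ebd2_mp.ForestAlg

/-! The uniform data determines the matrix elements between product vectors built from a basis of
the qubit and its dual basis. -/

namespace Pool.Agent.Lib.MP_f2ebd2_mp

open Matrix Complex
open scoped ComplexOrder MatrixOrder

variable {N : ℕ}

/-- Support and letter counts of a Pauli string. -/
def key (p : Fin N → Fin 4) : Finset (Fin N) × ℕ × ℕ × ℕ :=
  (Finset.univ.filter fun k => p k ≠ 0, (Finset.univ.filter fun k => p k = 1).card,
    (Finset.univ.filter fun k => p k = 2).card, (Finset.univ.filter fun k => p k = 3).card)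

lemma key_card (p : Fin N → Fin 4) :
    (key p).2.1 + (key p).2.2.1 + (key p).2.2.2 = (key p).1.card := by
  simp only [key, Finset.card_filter, ← Finset.sum_add_distrib]
  refine Finset.sum_congr rfl fun k _ => ?_
  generalize p k = a
  revert a; decide

lemma same_fiber {ρ τ : Mat N} (hρ : IsDensity ρ) (hτ : IsDensity τ) (hd : SameData ρ τ)
    (q : Fin N → Fin 4) :
    ∑ p with key p = key q, E ρ p = ∑ p with key p = key q, E τ p := by
  rcases (key q).1.eq_empty_or_nonempty with h | h
  · refine Finset.sum_congr rfl fun p hp => ?_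
    have h1 : (key p).1 = ∅ := by rw [(Finset.mem_filter.1 hp).2, h]
    have h2 : p = 0 := by
      funext k
      by_contra hk
      have : k ∈ (key p).1 := Finset.mem_filter.2 ⟨Finset.mem_univ _, hk⟩
      rw [h1] at this; simp at this
    rw [h2, E, E, pauli_zero, mul_one, mul_one, hρ.2, hτ.2]
  · have h1 := hd _ h _ _ _ (key_card q)
    unfold symOp at h1
    rw [Finset.mul_sum, Finset.mul_sum, Matrix.trace_sum, Matrix.trace_sum] at h1
    have h2 : (Finset.univ.filter fun p : Fin N → Fin 4 => key p = key q) =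
        Finset.univ.filter fun p : Fin N → Fin 4 =>
          (Finset.univ.filter fun k => p k ≠ 0) = (key q).1 ∧
          (Finset.univ.filter fun k => p k = 1).card = (key q).2.1 ∧
          (Finset.univ.filter fun k => p k = 2).card = (key q).2.2.1 ∧
          (Finset.univ.filter fun k => p k = 3).card = (key q).2.2.2 := by
      refine Finset.filter_congr fun p _ => ?_
      simp only [key, Prod.ext_iff]
    rw [h2]
    exact h1

lemma same_weighted {ρ τ : Mat N} (hρ : IsDensity ρ) (hτ : IsDensity τ) (hd : SameData ρ τ)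
    (w : (Fin N → Fin 4) → ℂ) (hw : ∀ p q, key p = key q → w p = w q) :
    ∑ p, w p * E ρ p = ∑ p, w p * E τ p := by
  classical
  have hmap : ∀ p ∈ (Finset.univ : Finset (Fin N → Fin 4)), key p ∈ Finset.univ.image key :=
    fun p hp => Finset.mem_image_of_mem _ hp
  rw [← Finset.sum_fiberwise_of_maps_to hmap, ← Finset.sum_fiberwise_of_maps_to hmap
    (fun p => w p * E τ p)]
  refine Finset.sum_congr rfl fun κ hκ => ?_
  obtain ⟨q, -, rfl⟩ := Finset.mem_image.1 hκ
  have h1 : ∀ σ : Mat N, ∑ p with key p = key q, w p * E σ p =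
      w q * ∑ p with key p = key q, E σ p := by
    intro σ
    rw [Finset.mul_sum]
    exact Finset.sum_congr rfl fun p hp => by rw [hw p q (Finset.mem_filter.1 hp).2]
  rw [h1, h1, same_fiber hρ hτ hd]

lemma prod_letters (α : Fin 4 → ℂ) (h0 : α 0 = 1) (p : Fin N → Fin 4) :
    ∏ k, α (p k) = α 1 ^ (key p).2.1 * α 2 ^ (key p).2.2.1 * α 3 ^ (key p).2.2.2 := by
  simp only [key, Finset.card_filter, ← Finset.prod_pow_eq_pow_sum, ← Finset.prod_mul_distrib]
  refine Finset.prod_congr rfl fun k _ => ?_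
  generalize p k = a
  fin_cases a <;> simp [h0]

/-- The product vector with `q` on `S` and `p` elsewhere. -/
def pv (S : Finset (Fin N)) (q p : Fin 2 → ℂ) : (Fin N → Fin 2) → ℂ :=
  fun y => ∏ k, (if k ∈ S then q else p) (y k)

/-- Rotation by a quarter turn: `J f` is killed by the covector `f`. -/
def J (v : Fin 2 → ℂ) : Fin 2 → ℂ := ![-v 1, v 0]

lemma same_pv {ρ τ : Mat N} (hρ : IsDensity ρ) (hτ : IsDensity τ) (hd : SameData ρ τ)
    (S : Finset (Fin N)) (p f : Fin 2 → ℂ) :
    pv S (J p) f ⬝ᵥ (ρ *ᵥ pv S (J f) p) = pv S (J p) f ⬝ᵥ (τ *ᵥ pv S (J f) p) := by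
  set α : Fin 4 → ℂ := ![1, (p 0 * f 1 + p 1 * f 0) / 2, I * (p 0 * f 1 - p 1 * f 0) / 2,
    (p 0 * f 0 - p 1 * f 1) / 2] with hα
  set δ : ℂ := (p 0 * f 0 + p 1 * f 1) / 2 with hδ
  set γ : Fin N → Fin 4 → ℂ :=
    fun k l => (if l ≠ 0 then (if k ∈ S then -1 else 1) else δ) * α l with hγ
  have hO : Matrix.vecMulVec (pv S (J f) p) (pv S (J p) f) = ∑ r, (∏ k, γ k (r k)) • pauli r := by
    ext i j
    rw [Matrix.sum_apply]
    simp only [Matrix.vecMulVec_apply, pv, pauli, Matrix.smul_apply, Matrix.of_apply, smul_eq_mul,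
      ← Finset.prod_mul_distrib]
    rw [← Fintype.piFinset_univ, ← Finset.prod_univ_sum (fun _ => (Finset.univ : Finset (Fin 4)))
      (fun k (l : Fin 4) => γ k l * sigma l (i k) (j k))]
    refine Finset.prod_congr rfl fun k _ => ?_
    generalize i k = a
    generalize j k = b
    have hI : I * I = -1 := I_mul_I
    by_cases hk : k ∈ S <;> fin_cases a <;> fin_cases b <;>
      simp [hγ, hα, hδ, hk, J, sigma, Fin.sum_univ_four] <;>
      first
        | ring1
        | linear_combination (p 0 * f 1 - p 1 * f 0) / 2 * hI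
        | linear_combination (p 1 * f 0 - p 0 * f 1) / 2 * hI
  have htr : ∀ σ : Mat N, pv S (J p) f ⬝ᵥ (σ *ᵥ pv S (J f) p) = ∑ r, (∏ k, γ k (r k)) * E σ r := by
    intro σ
    rw [dotProduct_comm, ← Matrix.trace_vecMulVec, ← Matrix.mul_vecMulVec, hO, Finset.mul_sum,
      Matrix.trace_sum]
    refine Finset.sum_congr rfl fun r _ => ?_
    rw [Matrix.mul_smul, Matrix.trace_smul, smul_eq_mul, E]
  rw [htr, htr]
  refine same_weighted hρ hτ hd _ fun r r' h => ?_
  simp only [hγ, Finset.prod_mul_distrib]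
  rw [prod_letters α rfl, prod_letters α rfl, h]
  congr 1
  refine Finset.prod_congr rfl fun k _ => ?_
  have h1 : k ∈ (key r).1 ↔ k ∈ (key r').1 := by rw [h]
  simp only [key, Finset.mem_filter, Finset.mem_univ, true_and] at h1
  simp only [h1]

lemma pv_add (S : Finset (Fin N)) (a b : ℂ) (q p : Fin 2 → ℂ) :
    pv S (a • p + b • q) p = ∑ T ∈ S.powerset, (b ^ T.card * a ^ (S.card - T.card)) • pv T q p := by
  funext y
  rw [Finset.sum_apply]
  have h1 : ∀ T : Finset (Fin N), ∀ u : Fin 2 → ℂ, pv T u p y =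
      (∏ k ∈ T, u (y k)) * ∏ k ∈ Tᶜ, p (y k) := by
    intro T u
    unfold pv
    rw [← Finset.prod_mul_prod_compl T]
    congr 1
    · exact Finset.prod_congr rfl fun k hk => by rw [if_pos hk]
    · exact Finset.prod_congr rfl fun k hk => by rw [if_neg (Finset.mem_compl.1 hk)]
  rw [h1]
  simp only [Pi.add_apply, Pi.smul_apply, smul_eq_mul]
  simp only [add_comm (a * _)]
  rw [Finset.prod_add, Finset.sum_mul]
  refine Finset.sum_congr rfl fun T hT => ?_
  have hTS := Finset.mem_powerset.1 hT
  have h2 : Tᶜ = (S \ T) ∪ Sᶜ := by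
    ext k
    have := @hTS k
    simp only [Finset.mem_compl, Finset.mem_union, Finset.mem_sdiff]
    tauto
  have h3 : Disjoint (S \ T) Sᶜ := Finset.disjoint_left.2 fun k h1 h2 =>
    Finset.mem_compl.1 h2 (Finset.mem_sdiff.1 h1).1
  rw [h1, h2, Finset.prod_union h3, Finset.prod_mul_distrib, Finset.prod_mul_distrib,
    Finset.prod_const, Finset.prod_const, Finset.card_sdiff_of_subset hTS]
  ring

lemma pv_smul (S : Finset (Fin N)) (a : ℂ) (q p : Fin 2 → ℂ) :
    pv S q (a • p) = a ^ Sᶜ.card • pv S q p := by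
  funext y
  have h1 : a ^ Sᶜ.card = ∏ k, if k ∈ S then 1 else a := by
    rw [← Finset.prod_mul_prod_compl S, Finset.prod_congr rfl fun k hk => if_pos hk,
      Finset.prod_congr rfl fun k hk => if_neg (Finset.mem_compl.1 hk)]
    simp
  simp only [pv, Pi.smul_apply, smul_eq_mul, h1, ← Finset.prod_mul_distrib]
  refine Finset.prod_congr rfl fun k _ => ?_
  split_ifs <;> simp

lemma star_pv (S : Finset (Fin N)) (q p : Fin 2 → ℂ) :
    star (pv S q p) = pv S (star q) (star p) := by
  funext y
  simp only [pv, Pi.star_apply, star_prod]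
  refine Finset.prod_congr rfl fun k _ => ?_
  split_ifs <;> rfl

end Pool.Agent.Lib.MP_f2ebd2_mp
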