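import Pool.Agent.Lib.MP_f2ebd2_mp.GenericData

/-! Polynomials attached to product vectors. -/

namespace Pool.Agent.Lib.MP_f2ebd2_mp

open Matrix Complex Polynomial

variable {N : ℕ}

/-- The pairing of `m` with a product vector of polynomials. -/
noncomputable def pp (m : (Fin N → Fin 2) → ℂ) (S : Finset (Fin N)) (q p : Fin 2 → ℂ[X]) : ℂ[X] :=
  ∑ y, C (m y) * ∏ k, (if k ∈ S then q else p) (y k)

lemma eval_pp (m : (Fin N → Fin 2) → ℂ) (S : Finset (Fin N)) (q p : Fin 2 → ℂ[X]) (t : ℂ) :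
    (pp m S q p).eval t = m ⬝ᵥ pv S (fun b => (q b).eval t) (fun b => (p b).eval t) := by
  simp only [pp, pv, dotProduct, eval_finsetSum, eval_mul, eval_C, eval_prod]
  refine Finset.sum_congr rfl fun y _ => ?_
  congr 1
  refine Finset.prod_congr rfl fun k _ => ?_
  split_ifs <;> rfl

lemma natDegree_pp_lt (m : (Fin N → Fin 2) → ℂ) {S : Finset (Fin N)} (hS : S.Nonempty)
    {q p : Fin 2 → ℂ[X]} (hq : ∀ b, (q b).natDegree = 0) (hp : ∀ b, (p b).natDegree ≤ 1) :
    (pp m S q p).natDegree < N := by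
  obtain ⟨k0, hk0⟩ := hS
  have hN : 0 < N := k0.pos
  have h1 : (pp m S q p).natDegree ≤ N - 1 := by
    refine natDegree_sum_le_of_forall_le _ _ fun y _ => (natDegree_C_mul_le _ _).trans ?_
    refine (natDegree_prod_le _ _).trans ?_
    have h2 : ∑ k, ((if k ∈ S then q else p) (y k)).natDegree < ∑ _k : Fin N, 1 := by
      refine Finset.sum_lt_sum (fun k _ => ?_) ⟨k0, Finset.mem_univ _, ?_⟩
      · split_ifs
        · rw [hq]; exact zero_le_one
        · exact hp _
      · rw [if_pos hk0, hq]; exact zero_lt_one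
    simp only [Finset.sum_const, Finset.card_univ, Fintype.card_fin, smul_eq_mul, mul_one] at h2
    omega
  omega

lemma coeff_pp_top (m : (Fin N → Fin 2) → ℂ) (q p : Fin 2 → ℂ[X]) (b : Fin 2) (hb : p b = X)
    (hb' : ∀ c, c ≠ b → (p c).natDegree = 0) : (pp m ∅ q p).coeff N = m (fun _ => b) := by
  simp only [pp, finsetSum_coeff, coeff_C_mul, Finset.notMem_empty, if_false]
  rw [Finset.sum_eq_single (fun _ => b)]
  · simp [hb]
  · intro y _ hy
    obtain ⟨k0, hk0⟩ := Function.ne_iff.1 hy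
    rw [coeff_eq_zero_of_natDegree_lt, mul_zero]
    refine (natDegree_prod_le _ _).trans_lt ?_
    have h2 : ∑ k, (p (y k)).natDegree < ∑ _k : Fin N, 1 := by
      refine Finset.sum_lt_sum (fun k _ => ?_) ⟨k0, Finset.mem_univ _, ?_⟩
      · by_cases h : y k = b
        · rw [h, hb, natDegree_X]
        · rw [hb' _ h]; exact zero_le_one
      · rw [hb' _ hk0]; exact zero_lt_one
    simpa using h2
  · simp

lemma ne_zero_of_pv {m : (Fin N → Fin 2) → ℂ} {q p : Fin 2 → ℂ} {b : Fin 2}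
    (hp : ∀ c, c ≠ b → p c = 0) (h : m ⬝ᵥ pv ∅ q p ≠ 0) : m (fun _ => b) ≠ 0 := by
  intro h0
  refine h (Finset.sum_eq_zero fun y _ => ?_)
  by_cases hy : y = fun _ => b
  · rw [hy, h0, zero_mul]
  · obtain ⟨k0, hk0⟩ := Function.ne_iff.1 hy
    rw [pv, Finset.prod_eq_zero (Finset.mem_univ k0) (by simpa using hp _ hk0), mul_zero]

/-- The divisibility argument. -/
lemma poly_step {c c' h h' : ℂ[X]} {ε : ℂ} (hε : ε ≠ 0) (hco : ∀ t, c.eval t ≠ 0 ∨ c'.eval t ≠ 0)
    (htop : c.coeff N ≠ 0 ∨ c'.coeff N ≠ 0) (hh : h.natDegree < N) (hh' : h'.natDegree < N)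
    (heq : ∀ t, t ≠ 0 → ε * c'.eval t * h.eval t + c.eval t * h'.eval t = 0) : h = 0 := by
  have h1 : C ε * c' * h + c * h' = 0 := by
    refine eq_zero_of_infinite_isRoot _ (Set.Infinite.mono (s := {0}ᶜ) (fun t ht => ?_)
      (Set.finite_singleton _).infinite_compl)
    simpa [IsRoot] using heq t ht
  have hcop : IsCoprime c c' := by
    rw [Polynomial.isCoprime_iff_aeval_ne_zero_of_isAlgClosed (k := ℂ) ℂ]
    simpa using hco
  rcases htop with ht | ht
  · have h2 : c ∣ h * c' := ⟨-(C ε⁻¹ * h'), by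
      have h3 : C ε⁻¹ * C ε = (1 : ℂ[X]) := by rw [← C_mul, inv_mul_cancel₀ hε, C_1]
      linear_combination (C ε⁻¹) * h1 - (h * c') * h3⟩
    exact eq_zero_of_dvd_of_natDegree_lt (hcop.dvd_of_dvd_mul_right h2)
      (hh.trans_le (le_natDegree_of_ne_zero ht))
  · have h2 : c' ∣ h' * c := ⟨-(C ε * h), by linear_combination h1⟩
    have h3 : h' = 0 := eq_zero_of_dvd_of_natDegree_lt (hcop.symm.dvd_of_dvd_mul_right h2)
      (hh'.trans_le (le_natDegree_of_ne_zero ht))
    rw [h3, mul_zero, add_zero] at h1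
    have h4 : c' ≠ 0 := by rintro rfl; simp at ht
    exact (mul_eq_zero.1 h1).resolve_left (mul_ne_zero (by simpa using hε) h4)

lemma pv_same (S : Finset (Fin N)) (a : ℂ) (q p : Fin 2 → ℂ) :
    pv S (a • p) p = a ^ S.card • pv ∅ q p := by
  funext y
  have h1 : a ^ S.card = ∏ k, if k ∈ S then a else 1 := by
    rw [Finset.prod_ite_mem]; simp
  simp only [pv, Pi.smul_apply, smul_eq_mul, h1, ← Finset.prod_mul_distrib]
  refine Finset.prod_congr rfl fun k _ => ?_
  by_cases hk : k ∈ S <;> simp [hk]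

lemma continuous_pv (S : Finset (Fin N)) {q p : ℂ → Fin 2 → ℂ} (hq : Continuous q)
    (hp : Continuous p) : Continuous fun a => pv S (q a) (p a) := by
  refine continuous_pi fun y => continuous_finsetProd _ fun k _ => ?_
  split_ifs
  · exact (continuous_apply _).comp hq
  · exact (continuous_apply _).comp hp

lemma single_eq_pv (y : Fin N → Fin 2) :
    (Pi.single y 1 : (Fin N → Fin 2) → ℂ) =
      pv (Finset.univ.filter fun k => y k = 1) ![0, 1] ![1, 0] := by
  funext x
  have h1 : ∀ a b : Fin 2, (if a = 1 then ![(0 : ℂ), 1] else ![1, 0]) b = if b = a then 1 else 0 := by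
    intro a b; fin_cases a <;> fin_cases b <;> simp
  simp only [pv, Finset.mem_filter, Finset.mem_univ, true_and, h1]
  by_cases h : x = y
  · subst h; simp
  · obtain ⟨k, hk⟩ := Function.ne_iff.1 h
    rw [Pi.single_eq_of_ne h, Finset.prod_eq_zero (Finset.mem_univ k) (if_neg hk)]

end Pool.Agent.Lib.MP_f2ebd2_mp
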