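import Pool.Agent.Lib.MP_f2ebd2_mp.Bridge

/-! Uniqueness among stabilizer states, and the second state with the same data. -/

namespace Pool.Agent.Lib.MP_f2ebd2_mp

open Matrix Complex
open scoped ComplexOrder

def sg (b : Bool) : ℂ := if b then -1 else 1

def Good (χ : Vec) (K : List (ℕ × Bool)) : Prop := ∀ x ∈ K, M x.1 *ᵥ χ = sg x.2 • χ

lemma sg_sq (b : Bool) : sg b * sg b = 1 := by cases b <;> simp [sg]

lemma sg_xor (a b : Bool) : sg (xor a b) = sg a * sg b := by cases a <;> cases b <;> simp [sg]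

lemma eig_mul {χ : Vec} {a b : ℕ} {s t : Bool} (ha : M a *ᵥ χ = sg s • χ)
    (hb : M b *ᵥ χ = sg t • χ) : I ^ phN a b • (M (a ^^^ b) *ᵥ χ) = (sg s * sg t) • χ := by
  rw [← Matrix.smul_mulVec, ← M_mul, ← Matrix.mulVec_mulVec, hb, Matrix.mulVec_smul, ha, smul_smul,
    mul_comm]

lemma eig_even {χ : Vec} (h0 : χ ≠ 0) {a b : ℕ} {s t : Bool} (ha : M a *ᵥ χ = sg s • χ)
    (hb : M b *ᵥ χ = sg t • χ) : phN a b % 2 = 0 := by
  by_contra hodd
  have h1 := eig_mul ha hb
  have h2 : (I ^ phN a b * I ^ phN a b) • χ = χ := by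
    have h3 := congrArg (fun v => I ^ phN a b • (M (a ^^^ b) *ᵥ v)) h1
    simp only [Matrix.mulVec_smul, Matrix.mulVec_mulVec, M_sq, Matrix.one_mulVec] at h3
    rw [smul_smul, smul_comm (I ^ phN a b) (sg s * sg t), h1, smul_smul] at h3
    rw [h3, mul_mul_mul_comm, sg_sq, sg_sq]; simp
  have h4 : I ^ phN a b * I ^ phN a b = -1 := by
    rw [← pow_add]; exact I_pow_of_two (by omega)
  rw [h4, neg_one_smul] at h2
  apply h0
  have h5 : (2 : ℂ) • χ = 0 := by
    rw [two_smul]; nth_rewrite 1 [← h2]; simp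
  exact (smul_eq_zero.1 h5).resolve_left two_ne_zero

lemma good_ext {χ : Vec} (h0 : χ ≠ 0) {K : List (ℕ × Bool)} (hK : Good χ K) {n : ℕ} {s : Bool}
    (hn : M n *ᵥ χ = sg s • χ) : Good χ (ext K n s) := by
  intro x hx
  rcases List.mem_append.1 hx with hx | hx
  · exact hK x hx
  obtain ⟨y, hy, rfl⟩ := List.mem_map.1 hx
  have h1 := eig_mul (hK y hy) hn
  have h2 := eig_even h0 (hK y hy) hn
  simp only [sg_xor]
  by_cases h : phN y.1 n % 4 = 2
  · rw [I_pow_of_two h, neg_one_smul, neg_eq_iff_eq_neg] at h1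
    rw [h1, decide_eq_true h]
    simp [sg]
  · rw [I_pow_of_zero (by omega), one_smul] at h1
    rw [h1, decide_eq_false h]
    simp [sg]

lemma search_sound {χ : Vec} (h0 : χ ≠ 0) : ∀ (l : List (List ℕ × Bool)) (K : List (ℕ × Bool)),
    (∀ c ∈ l, ∃ n ∈ c.1, M n *ᵥ χ = sg c.2 • χ) → Good χ K → search l K = true → Good χ target
  | [], K, _, hK, hs => by
    intro x hx
    simp only [search, List.all_eq_true, decide_eq_true_eq] at hs
    exact hK x (hs x hx)
  | (C, s) :: rest, K, hl, hK, hs => by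
    have hrest : ∀ c ∈ rest, ∃ n ∈ c.1, M n *ᵥ χ = sg c.2 • χ :=
      fun c hc => hl c (List.mem_cons_of_mem _ hc)
    rw [search] at hs
    split_ifs at hs with hany
    · exact search_sound h0 rest K hrest hK hs
    obtain ⟨n, hnC, hn⟩ := hl (C, s) List.mem_cons_self
    have h1 := List.all_eq_true.1 hs n hnC
    simp only [Bool.or_eq_true, List.any_eq_true, decide_eq_true_eq] at h1
    rcases h1 with (⟨x, hx, hodd⟩ | hneg) | hrec
    · have := eig_even h0 (hK x hx) hn
      omega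
    · exfalso
      have h2 := hK _ hneg
      simp only at h2 hn
      rw [hn] at h2
      have h3 : (sg s - sg (!s)) • χ = 0 := by rw [sub_smul, h2, sub_self]
      refine h0 ((smul_eq_zero.1 h3).resolve_left ?_)
      cases s <;> simp [sg] <;> norm_num
    · exact search_sound h0 rest _ hrest (good_ext h0 hK hn) hrec

lemma unique_stab {ψ : Vec} (hu : star ψ ⬝ᵥ ψ = 1) (hf : ∀ g ∈ G0, g *ᵥ ψ = ψ) {χ : Vec}
    (hχ : IsStabilizerState χ) (hd : SameData (proj χ) (proj ψ)) : proj χ = proj ψ := by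
  have h0 : χ ≠ 0 := by
    intro h
    have := hχ.1
    rw [h] at this
    simp at this
  have hgood : Good χ target := by
    refine search_sound h0 _ _ ?_ ?_ chk_search
    · intro c hc
      obtain ⟨x, hx, rfl⟩ := List.mem_map.1 hc
      obtain ⟨h1, h2, h3⟩ := chk_seq x hx
      have h4 := hd.keySum h1 h2
      have h5 : (∑ n ∈ Finset.range 4096, if key n = key x.1 then (proj ψ * M n).trace else 0) =
          ((((cls x.1).map e0).sum : ℤ) : ℂ) := by
        rw [← sum_cls e0, proj_eq_P0 hu hf]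
        push_cast
        refine Finset.sum_congr rfl fun n hn => ?_
        rw [trace_P0_mul (Finset.mem_range.1 hn)]
      rw [h5, sum_cls (fun n => (proj χ * M n).trace)] at h4
      dsimp only
      generalize cls x.1 = C at h3 h4 ⊢
      by_contra hcon'
      push Not at hcon'
      have h6 : ∀ n ∈ C, sg x.2 * (proj χ * M n).trace ≤ 0 := by
        intro n hn
        have hne := hcon' n hn
        have hp : M n *ᵥ χ = χ → (proj χ * M n).trace = 1 := fun h => by
          rw [trace_proj_mul, h, hχ.1]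
        have hm : M n *ᵥ χ = -χ → (proj χ * M n).trace = -1 := fun h => by
          rw [trace_proj_mul, h, dotProduct_neg, hχ.1]
        rcases hχ.trichotomy (dec n) with h | h | h
        · rw [hp h]
          cases hb : x.2
          · exact absurd (by rw [hb]; simpa [sg, M] using h) hne
          · simp [sg]
        · rw [hm h]
          cases hb : x.2
          · simp [sg]
          · exact absurd (by rw [hb]; simpa [sg, M] using h) hne
        · rw [M, h]; simp
      have h7 : sg x.2 * (C.map fun n => (proj χ * M n).trace).sum ≤ 0 := by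
        rw [← List.sum_map_mul_left]
        simpa using List.sum_le_sum (g := fun _ => (0 : ℂ)) h6
      rw [h4] at h7
      cases hb : x.2
      · rw [hb] at h3 h7
        simp only [sg, Bool.false_eq_true, if_false, one_mul] at h3 h7
        have : (C.map e0).sum ≤ 0 := by exact_mod_cast h7
        omega
      · rw [hb] at h3 h7
        simp only [sg, if_true, neg_one_mul, Left.neg_nonpos_iff] at h3 h7
        have : 0 ≤ (C.map e0).sum := by exact_mod_cast h7
        omega
    · intro x hx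
      rw [List.mem_singleton.1 hx]
      simp [M_zero, sg]
  rw [proj_eq_P0 hu hf]
  refine proj_eq_P0 hχ.1 fun g hg => ?_
  obtain ⟨n, hn, rfl⟩ := mem_G0.1 hg
  have h1 := hgood _ (List.mem_map.2 ⟨n, hn, rfl⟩)
  simp only at h1
  rw [gen, Matrix.smul_mulVec, h1, smul_smul]
  rcases (chk_L0 n hn).2 with h | h <;> simp [h, sg]

/-! ### The second state -/

noncomputable def opM : Mat := (cp.map fun x => (x.1 : ℂ) • M x.2).sum

noncomputable def rho (ψ : Vec) : Mat := (20 : ℂ)⁻¹ • proj (opM *ᵥ ψ)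

lemma ip_coe (k : ℕ) : ((ip k : GaussianInt) : ℂ) = I ^ k := by
  rw [Complex.I_pow_eq_pow_mod, ip]
  have : k % 4 = 0 ∨ k % 4 = 1 ∨ k % 4 = 2 ∨ k % 4 = 3 := by omega
  rcases this with h | h | h | h <;> simp [h, GaussianInt.toComplex_def', pow_succ]

lemma coe_mk (a : ℤ) : (((⟨a, 0⟩ : GaussianInt) : GaussianInt) : ℂ) = a := by
  rw [GaussianInt.toComplex_def']; simp

lemma term_coe {ψ : Vec} (hu : star ψ ⬝ᵥ ψ = 1) (hf : ∀ g ∈ G0, g *ᵥ ψ = ψ) {n : ℕ}
    (hn : n < 4096) (x y : GaussianInt × ℕ) (hx : x.2 < 4096) (hy : y.2 < 4096) :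
    star (((x.1 : ℂ) • M x.2) *ᵥ ψ) ⬝ᵥ (M n *ᵥ (((y.1 : ℂ) • M y.2) *ᵥ ψ)) =
      ((term n x y : GaussianInt) : ℂ) := by
  have h1 : star ψ ⬝ᵥ (M (x.2 ^^^ n ^^^ y.2) *ᵥ ψ) = e0 (x.2 ^^^ n ^^^ y.2) := by
    rw [← trace_proj_mul, proj_eq_P0 hu hf, trace_P0_mul (xor_lt (xor_lt hx hn) hy)]
  rw [Matrix.star_mulVec, ← Matrix.dotProduct_mulVec, Matrix.mulVec_mulVec, Matrix.mulVec_mulVec,
    Matrix.conjTranspose_smul, M_herm, smul_mul_assoc, smul_mul_smul_comm, M_mul, smul_mul_assoc,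
    M_mul, smul_smul, smul_smul, Matrix.smul_mulVec, dotProduct_smul, h1, term]
  split_ifs with h
  · simp [h]
  · rw [map_mul, map_mul, map_mul, ip_coe, GaussianInt.toComplex_star, pow_add, coe_mk]
    simp only [smul_eq_mul, Complex.star_def]
    ring

lemma trace_rho {ψ : Vec} (hu : star ψ ⬝ᵥ ψ = 1) (hf : ∀ g ∈ G0, g *ᵥ ψ = ψ) {n : ℕ}
    (hn : n < 4096) :
    (rho ψ * M n).trace = (proj ψ * M n).trace + (20 : ℂ)⁻¹ * ((wt n : GaussianInt) : ℂ) := by
  rw [rho, smul_mul_assoc, Matrix.trace_smul, trace_proj_mul, proj_eq_P0 hu hf, trace_P0_mul hn, wt,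
    map_sub, coe_mk]
  have h1 : star (opM *ᵥ ψ) ⬝ᵥ (M n *ᵥ (opM *ᵥ ψ)) =
      (((cp.map fun x => (cp.map fun y => term n x y).sum).sum : GaussianInt) : ℂ) := by
    simp only [opM, cp, List.map_cons, List.map_nil, List.sum_cons, List.sum_nil, add_zero, map_add,
      Matrix.add_mulVec, Matrix.mulVec_add, star_add, add_dotProduct, dotProduct_add]
    repeat rw [← term_coe hu hf hn _ _ (by norm_num) (by norm_num)]
    ring
  rw [h1]
  simp only [smul_eq_mul]
  push_cast
  ring

lemma rho_density {ψ : Vec} (hu : star ψ ⬝ᵥ ψ = 1) (hf : ∀ g ∈ G0, g *ᵥ ψ = ψ) :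
    IsDensity (rho ψ) := by
  refine ⟨?_, ?_⟩
  · refine Matrix.PosSemidef.smul (Matrix.posSemidef_vecMulVec_self_star _) ?_
    positivity
  · have h := trace_rho hu hf (n := 0) (by norm_num)
    rw [chk_wt0.1, proj_eq_P0 hu hf, trace_P0_mul (by norm_num), chk_zero.2, M_zero, mul_one] at h
    simpa using h

lemma rho_ne {ψ : Vec} (hu : star ψ ⬝ᵥ ψ = 1) (hf : ∀ g ∈ G0, g *ᵥ ψ = ψ) : rho ψ ≠ proj ψ := by
  intro h
  have h1 := trace_rho hu hf (n := 54) (by norm_num)
  rw [h] at h1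
  have h2 : ((wt 54 : GaussianInt) : ℂ) = 0 := by simpa using h1
  exact chk_wt0.2 (GaussianInt.toComplex_eq_zero.1 h2)

lemma sum_wt (m : ℕ) : (∑ n ∈ Finset.range 4096, if key n = key m then wt n else 0) = 0 := by
  have h1 : (∑ n ∈ Finset.range 4096, if key n = key m then wt n else 0) =
      (Wn.map fun n => if key n = key m then wt n else 0).sum := by
    rw [← List.sum_toFinset _ chk_Wn.1]
    symm
    refine Finset.sum_subset (fun n hn => Finset.mem_range.2 (chk_Wn.2 n (List.mem_toFinset.1 hn)))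
      fun n hn hn' => ?_
    rcases chk_wt n (Finset.mem_range.1 hn) with h | h
    · simp [h]
    · exact absurd (List.mem_toFinset.2 h) hn'
  rw [h1]
  by_cases hex : ∃ k ∈ Wn, key k = key m
  · obtain ⟨k, hk, hkm⟩ := hex
    rw [← hkm]
    exact chk_Wn_sum k hk
  · refine List.sum_eq_zero fun y hy => ?_
    obtain ⟨n, hn, rfl⟩ := List.mem_map.1 hy
    rw [if_neg fun h => hex ⟨n, hn, h⟩]

lemma rho_sameData {ψ : Vec} (hu : star ψ ⬝ᵥ ψ = 1) (hf : ∀ g ∈ G0, g *ᵥ ψ = ψ) :
    SameData (rho ψ) (proj ψ) := by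
  refine sameData_of_keySum fun m _ => ?_
  have h1 := congrArg (fun z : GaussianInt => (20 : ℂ)⁻¹ * (z : ℂ)) (sum_wt m)
  simp only [map_sum, map_zero, mul_zero, Finset.mul_sum] at h1
  rw [← sub_eq_zero, ← h1, ← Finset.sum_sub_distrib]
  refine Finset.sum_congr rfl fun n hn => ?_
  split_ifs
  · rw [trace_rho hu hf (Finset.mem_range.1 hn)]; ring
  · simp

end Pool.Agent.Lib.MP_f2ebd2_mp
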