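import Pool.Agent.Lib.MP_f2ebd2_mp.Defs

/-! Amplitudes after a uniform rotation. -/

namespace Pool.Agent.Lib.MP_f2ebd2_mp

/-- The amplitude of `(U ⊗ ⋯ ⊗ U) ψ` at the outcome `x`. -/
def amp {N : ℕ} (U : Matrix (Fin 2) (Fin 2) ℂ) (ψ : (Fin N → Fin 2) → ℂ) (x : Fin N → Fin 2) : ℂ :=
  ∑ y, (∏ k, U (x k) (y k)) * ψ y

end Pool.Agent.Lib.MP_f2ebd2_mp
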