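import Pool.Agent.Lib.MP_f2ebd2_mp.Generic
import Pool.Agent.Lib.MP_f2ebd2_mp.PhaseDefs

/-! A phase condition on complementary outcomes gives uniform certifiability. -/

namespace Pool.Agent.Lib.MP_f2ebd2_mp

open Matrix Complex Polynomial
open scoped ComplexOrder MatrixOrder

variable {N : ℕ}

lemma decomp {g w : Fin 2 → ℂ} (h : g 0 * w 1 - g 1 * w 0 ≠ 0) (v : Fin 2 → ℂ) :
    ∃ a b : ℂ, v = a • g + b • w := by
  have hi := mul_inv_cancel₀ h
  refine ⟨(v 0 * w 1 - v 1 * w 0) * (g 0 * w 1 - g 1 * w 0)⁻¹,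
    (g 0 * v 1 - g 1 * v 0) * (g 0 * w 1 - g 1 * w 0)⁻¹, ?_⟩
  funext b
  fin_cases b
  · simp only [Fin.zero_eta, Pi.add_apply, Pi.smul_apply, smul_eq_mul]
    linear_combination (-v 0) * hi
  · simp only [Fin.mk_one, Pi.add_apply, Pi.smul_apply, smul_eq_mul]
    linear_combination (-v 1) * hi

lemma det_self_ne {p : Fin 2 → ℂ} (hp : p ≠ 0) : p 0 * J (star p) 1 - p 1 * J (star p) 0 ≠ 0 := by
  intro h
  have h3 : ((Complex.normSq (p 0) + Complex.normSq (p 1) : ℝ) : ℂ) = 0 := by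
    simp only [J, Pi.star_apply, Matrix.cons_val_one, Matrix.cons_val_zero, Complex.star_def] at h
    push_cast
    rw [Complex.normSq_eq_conj_mul_self, Complex.normSq_eq_conj_mul_self]
    linear_combination h
  have h4 := Complex.normSq_nonneg (p 0)
  have h5 := Complex.normSq_nonneg (p 1)
  have h6 := Complex.ofReal_eq_zero.1 h3
  apply hp
  funext b
  fin_cases b
  · exact Complex.normSq_eq_zero.1 (by simp only [Fin.zero_eta]; linarith)
  · exact Complex.normSq_eq_zero.1 (by simp only [Fin.mk_one]; linarith)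

lemma JJ (p : Fin 2 → ℂ) : J (star (J (star p))) = (-1 : ℂ) • p := by
  funext b; fin_cases b <;> simp [J]

lemma pv_smul_left (S : Finset (Fin N)) (a : ℂ) (q p : Fin 2 → ℂ) :
    pv S (a • q) p = a ^ S.card • pv S q p := by
  funext y
  have h1 : a ^ S.card = ∏ k, if k ∈ S then a else 1 := by
    rw [Finset.prod_ite_mem]; simp
  simp only [pv, Pi.smul_apply, smul_eq_mul, h1, ← Finset.prod_mul_distrib]
  refine Finset.prod_congr rfl fun k _ => ?_
  by_cases hk : k ∈ S <;> simp [hk]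

lemma pv_self (S : Finset (Fin N)) (p : Fin 2 → ℂ) : pv S p p = pv ∅ 0 p := by
  funext y; simp [pv]

lemma ne_zero_of_amp {ψ : (Fin N → Fin 2) → ℂ} {S : Finset (Fin N)} (hS : S.Nonempty)
    {p : Fin 2 → ℂ} (h : star ψ ⬝ᵥ pv ∅ 0 p ≠ 0) : p ≠ 0 := by
  rintro rfl
  obtain ⟨k, -⟩ := hS
  apply h
  have : pv (∅ : Finset (Fin N)) 0 0 = 0 := by
    funext y
    exact Finset.prod_eq_zero (Finset.mem_univ k) (by simp)
  rw [this, dotProduct_zero]

lemma eq_zero_of_cofinite {E : Type*} [TopologicalSpace E] [T2Space E] [Zero E] {F : ℂ → E}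
    (hF : Continuous F) {Z : Set ℂ} (hZ : Z.Finite) (h : ∀ a, a ∉ Z → F a = 0) (a : ℂ) : F a = 0 :=
  congrFun (Continuous.ext_on (hZ.countable.dense_compl ℂ) hF continuous_const fun a ha => h a ha) a

section
variable {ρ : Mat N} (hρ : ρ.PosSemidef) {ψ b0 : (Fin N → Fin 2) → ℂ}
  (hbb : star b0 ⬝ᵥ ρ *ᵥ b0 = 1)
  (hD : ∀ (S : Finset (Fin N)) (p g : Fin 2 → ℂ),
    star (pv S (J (star p)) g) ⬝ᵥ ρ *ᵥ pv S (J (star g)) p =
      star (star ψ ⬝ᵥ pv S (J (star p)) g) * (star ψ ⬝ᵥ pv S (J (star g)) p))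
include hρ hbb hD

/-- One direction with vanishing deviation and nonzero constant amplitude kills the level. -/
lemma spread {S : Finset (Fin N)} (hS : S.Nonempty)
    (ih : ∀ T ⊂ S, ∀ p q : Fin 2 → ℂ, Dv ρ ψ b0 (pv T q p) = 0) {p : Fin 2 → ℂ}
    (h0 : star ψ ⬝ᵥ pv ∅ 0 p ≠ 0) (h : Dv ρ ψ b0 (pv S (J (star p)) p) = 0) (g q : Fin 2 → ℂ) :
    Dv ρ ψ b0 (pv S q g) = 0 := by
  have hp := ne_zero_of_amp hS h0
  have hcD : Continuous (Dv ρ ψ b0) := (Dv ρ ψ b0).continuous_of_finiteDimensional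
  have h1 : ∀ g, star ψ ⬝ᵥ pv S (J (star g)) p ≠ 0 →
      star b0 ⬝ᵥ Dv ρ ψ b0 (pv S (J (star p)) g) = 0 := by
    intro g hg
    have h2 := expand hρ.1 hbb _ _ (hD S p g)
    obtain ⟨a, b, hab⟩ := decomp (det_self_ne hp) (J (star g))
    have h3 : Dv ρ ψ b0 (pv S (J (star g)) p) = 0 := by
      rw [hab, scale_step (fun T hT q => ih T hT p q), h, smul_zero]
    rw [h3, dotProduct_zero, dotProduct_zero, mul_zero, zero_add, add_zero] at h2
    exact star_eq_zero.1 ((mul_eq_zero.1 h2).resolve_left hg)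
  have h2 : ∀ g, star b0 ⬝ᵥ Dv ρ ψ b0 (pv S (J (star p)) g) = 0 := by
    intro g
    set P : ℂ[X] := pp (star ψ) S (fun b => C (J (star g) b) + X * C (p b - J (star g) b))
      (fun b => C (p b)) with hP
    have hev : ∀ a, P.eval a =
        star ψ ⬝ᵥ pv S (J (star (g + star a • (-J (star p) - g)))) p := by
      intro a
      rw [hP, eval_pp]
      congr 2
      · funext b; fin_cases b <;> simp [J, vecHead, vecTail] <;> ring
      · funext b; simp
    have hP0 : P ≠ 0 := by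
      intro h3
      have h4 := hev 1
      have h5 : J (star (g + star (1 : ℂ) • (-J (star p) - g))) = p := by
        funext b; fin_cases b <;> simp [J]
      rw [h3, eval_zero, h5, pv_self] at h4
      exact h0 h4.symm
    have hc : Continuous fun a : ℂ =>
        star b0 ⬝ᵥ Dv ρ ψ b0 (pv S (J (star p)) (g + star a • (-J (star p) - g))) :=
      continuous_const.dotProduct (hcD.comp (continuous_pv S continuous_const
        (continuous_const.add (continuous_star.smul continuous_const))))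
    have h6 := eq_zero_of_cofinite hc (Polynomial.finite_setOfPred_isRoot hP0)
      (fun a ha => h1 _ (by rw [← hev]; exact ha)) 0
    simpa using h6
  have h3 : ∀ g : Fin 2 → ℂ, g 0 * J (star p) 1 - g 1 * J (star p) 0 ≠ 0 →
      Dv ρ ψ b0 (pv S q g) = 0 := by
    intro g hg
    have hg0 : g ≠ 0 := by rintro rfl; simp at hg
    obtain ⟨a, b, hab⟩ := decomp hg (J (star g))
    have h4 : Dv ρ ψ b0 (pv S (J (star g)) g) = 0 :=
      Dv_of_mu hρ hbb hD (by
        rw [hab, scale_step (fun T hT q => ih T hT g q), dotProduct_smul, h2, smul_zero])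
    obtain ⟨c, d, hcd⟩ := decomp (det_self_ne hg0) q
    rw [hcd, scale_step (fun T hT q => ih T hT g q), h4, smul_zero]
  by_cases hg : g 0 * J (star p) 1 - g 1 * J (star p) 0 = 0
  · have hc : Continuous fun a : ℂ => Dv ρ ψ b0 (pv S q (g + a • p)) :=
      hcD.comp (continuous_pv S continuous_const
        (continuous_const.add (continuous_id.smul continuous_const)))
    have h6 := eq_zero_of_cofinite hc (Set.finite_singleton 0) (fun a ha => h3 _ (by
      have h7 := mul_ne_zero (show a ≠ 0 from ha) (det_self_ne hp)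
      intro h8
      apply h7
      simp only [Pi.add_apply, Pi.smul_apply, smul_eq_mul] at h8
      linear_combination h8 - hg)) 0
    simpa using h6
  · exact h3 g hg

/-- The relation between the deviations at a direction and at its antipode. -/
lemma antipode {S : Finset (Fin N)} (hS : S.Nonempty)
    (ih : ∀ T ⊂ S, ∀ p q : Fin 2 → ℂ, Dv ρ ψ b0 (pv T q p) = 0) (p : Fin 2 → ℂ) :
    star (star ψ ⬝ᵥ pv ∅ 0 (J (star p))) * (star b0 ⬝ᵥ Dv ρ ψ b0 (pv S (J (star p)) p)) +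
      (star ψ ⬝ᵥ pv ∅ 0 p) * star (star b0 ⬝ᵥ Dv ρ ψ b0 (pv S p (J (star p)))) = 0 := by
  set q := J (star p) with hq
  have hcD : Continuous (Dv ρ ψ b0) := (Dv ρ ψ b0).continuous_of_finiteDimensional
  set F : ℂ → ℂ := fun a =>
    star (star ψ ⬝ᵥ pv S q (q + star a • p)) * (star b0 ⬝ᵥ Dv ρ ψ b0 (pv S q p)) +
      (star ψ ⬝ᵥ pv S ((-1 : ℂ) • p + a • q) p) * ((-1) ^ S.card *
        star (star b0 ⬝ᵥ Dv ρ ψ b0 (pv S p (q + star a • p)))) +
      (-a) ^ S.card * (star (Dv ρ ψ b0 (pv S p (q + star a • p))) ⬝ᵥ dev ψ b0 (pv S q p)) with hF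
  have hc1 : Continuous fun a : ℂ => q + star a • p :=
    continuous_const.add (continuous_star.smul continuous_const)
  have hc2 : Continuous fun a : ℂ => (-1 : ℂ) • p + a • q :=
    continuous_const.add (continuous_id.smul continuous_const)
  have hc3 : Continuous fun a : ℂ => Dv ρ ψ b0 (pv S p (q + star a • p)) :=
    hcD.comp (continuous_pv S continuous_const hc1)
  have hcont : Continuous F := by
    refine (Continuous.add ?_ ?_).add ?_
    · exact (continuous_const.dotProduct (continuous_pv S continuous_const hc1)).star.mul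
        continuous_const
    · exact (continuous_const.dotProduct (continuous_pv S hc2 continuous_const)).mul
        (continuous_const.mul (continuous_const.dotProduct hc3).star)
    · exact (continuous_id.neg.pow _).mul (hc3.star.dotProduct continuous_const)
  have hz := eq_zero_of_cofinite hcont (Set.finite_singleton 0) (fun a ha => by
    have e2 : J (star (q + star a • p)) = (-1 : ℂ) • p + a • q := by
      funext b; fin_cases b <;> simp [hq, J, vecHead, vecTail, add_comm]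
    have h1 := expand hρ.1 hbb _ _ (hD S p (q + star a • p))
    rw [e2, ← hq] at h1
    have e4 : q = (1 : ℂ) • (q + star a • p) + (-star a) • p := by simp
    have s1 : Dv ρ ψ b0 (pv S ((-1 : ℂ) • p + a • q) p) = a ^ S.card • Dv ρ ψ b0 (pv S q p) :=
      scale_step (fun T hT q => ih T hT _ q) _ _ _
    have s2 : Dv ρ ψ b0 (pv S q (q + star a • p)) =
        (-star a) ^ S.card • Dv ρ ψ b0 (pv S p (q + star a • p)) := by
      rw [← scale_step (fun T hT q => ih T hT _ q) 1, ← e4]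
    rw [s1, dotProduct_smul, dotProduct_smul, Dv_apply ρ ψ b0 (pv S q p),
      herm_dot hρ.1 (dev ψ b0 _), ← Dv_apply, ← Dv_apply, s2] at h1
    simp only [dotProduct_smul, star_smul, smul_dotProduct, star_pow, star_star, smul_eq_mul,
      star_mul', star_neg] at h1
    have h2 : a ^ S.card ≠ 0 := pow_ne_zero _ ha
    refine mul_left_cancel₀ h2 ?_
    simp only [hF]
    rw [neg_pow a] at h1 ⊢
    linear_combination h1) 0
  simp only [hF, neg_zero, zero_pow (Finset.card_pos.2 hS).ne', zero_mul, add_zero, star_zero,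
    zero_smul] at hz
  rw [pv_self, pv_smul_left, pv_self, dotProduct_smul, smul_eq_mul] at hz
  have h3 : ((-1 : ℂ) ^ S.card) * (-1) ^ S.card = 1 := by rw [← mul_pow]; simp
  linear_combination hz - (star ψ ⬝ᵥ pv ∅ 0 p) * star (star b0 ⬝ᵥ Dv ρ ψ b0 (pv S p q)) * h3

omit hD in
lemma self_eq {b : (Fin N → Fin 2) → ℂ}
    (h : star b ⬝ᵥ ρ *ᵥ b = star (star ψ ⬝ᵥ b) * (star ψ ⬝ᵥ b)) :
    (star (star ψ ⬝ᵥ b) * (star b0 ⬝ᵥ Dv ρ ψ b0 b)).re ≤ 0 ∧
      (0 ≤ (star (star ψ ⬝ᵥ b) * (star b0 ⬝ᵥ Dv ρ ψ b0 b)).re → Dv ρ ψ b0 b = 0) := by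
  have h1 := expand hρ.1 hbb _ _ h
  have h2 : 0 ≤ star (dev ψ b0 b) ⬝ᵥ Dv ρ ψ b0 b := hρ.dotProduct_mulVec_nonneg _
  have h3 := congrArg Complex.re h1
  have h4 : ((star ψ ⬝ᵥ b) * star (star b0 ⬝ᵥ Dv ρ ψ b0 b)).re =
      (star (star ψ ⬝ᵥ b) * (star b0 ⬝ᵥ Dv ρ ψ b0 b)).re := by
    simp [Complex.mul_re]
  rw [Complex.add_re, Complex.add_re, h4, Complex.zero_re] at h3
  obtain ⟨h5, h6⟩ := Complex.nonneg_iff.1 h2
  refine ⟨by linarith, fun h7 => (hρ.dotProduct_mulVec_zero_iff _).1 ?_⟩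
  exact Complex.ext (by rw [← Dv_apply, Complex.zero_re]; linarith) h6.symm

lemma all_Dv_phase (hb0 : ∀ p q, star b0 ⬝ᵥ Dv ρ ψ b0 (pv ∅ q p) = 0)
    (hψ : ∀ S : Finset (Fin N), ∃ p : Fin 2 → ℂ, star ψ ⬝ᵥ pv ∅ 0 p ≠ 0 ∧
      star ψ ⬝ᵥ pv ∅ 0 (J (star p)) ≠ 0 ∧ ∃ r : ℝ, 0 ≤ r ∧
        (star ψ ⬝ᵥ pv S (J (star p)) p) * (star ψ ⬝ᵥ pv S p (J (star p))) *
          star ((star ψ ⬝ᵥ pv ∅ 0 p) * (star ψ ⬝ᵥ pv ∅ 0 (J (star p)))) = r)
    (S : Finset (Fin N)) : ∀ p q : Fin 2 → ℂ, Dv ρ ψ b0 (pv S q p) = 0 := by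
  induction S using Finset.strongInduction with
  | H S ih =>
  rcases S.eq_empty_or_nonempty with rfl | hS
  · intro p q
    rw [pv_empty q (J (star p)) p]
    exact Dv_of_mu hρ hbb hD (S := ∅) (p := p) (hb0 p (J (star p)))
  obtain ⟨p, h0, h1, r, hr, hrr⟩ := hψ S
  have ha := antipode hρ hbb hD hS ih p
  have s1 := self_eq hρ hbb (hD S p p)
  have s2 := self_eq hρ hbb (hD S (J (star p)) (J (star p)))
  have hsq : ((-1 : ℂ) ^ S.card) * (-1) ^ S.card = 1 := by rw [← mul_pow]; simp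
  have e1 : star (star ψ ⬝ᵥ pv S (J (star (J (star p)))) (J (star p))) *
      (star b0 ⬝ᵥ Dv ρ ψ b0 (pv S (J (star (J (star p)))) (J (star p)))) =
      star (star ψ ⬝ᵥ pv S p (J (star p))) * (star b0 ⬝ᵥ Dv ρ ψ b0 (pv S p (J (star p)))) := by
    rw [JJ, pv_smul_left, map_smul, dotProduct_smul, dotProduct_smul, smul_eq_mul, smul_eq_mul,
      star_mul', star_pow, star_neg, star_one]
    linear_combination
      star (star ψ ⬝ᵥ pv S p (J (star p))) * (star b0 ⬝ᵥ Dv ρ ψ b0 (pv S p (J (star p)))) * hsq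
  rw [e1] at s2
  set A0 := star ψ ⬝ᵥ pv ∅ 0 p
  set A1 := star ψ ⬝ᵥ pv ∅ 0 (J (star p))
  set AS := star ψ ⬝ᵥ pv S (J (star p)) p
  set AC := star ψ ⬝ᵥ pv S p (J (star p))
  set m1 := star b0 ⬝ᵥ Dv ρ ψ b0 (pv S (J (star p)) p)
  set m2 := star b0 ⬝ᵥ Dv ρ ψ b0 (pv S p (J (star p)))
  by_cases hAS : AS = 0
  · exact fun g q => spread hρ hbb hD hS ih h0 (s1.2 (by rw [hAS]; simp)) g q
  · refine fun g q => spread hρ hbb hD hS ih h1 (s2.2 ?_) g q
    have e2 : ((Complex.normSq AS * Complex.normSq A0 : ℝ) : ℂ) * (AC * star m2) =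
        -(r * (star AS * m1)) := by
      push_cast
      rw [Complex.normSq_eq_conj_mul_self, Complex.normSq_eq_conj_mul_self, ← hrr, star_mul']
      simp only [← Complex.star_def]
      linear_combination (star AS * AS * star A0 * AC) * ha
    have e3 := congrArg Complex.re e2
    rw [Complex.re_ofReal_mul, Complex.neg_re, Complex.re_ofReal_mul] at e3
    have e4 : (AC * star m2).re = (star AC * m2).re := by simp [Complex.mul_re]
    have hpos : 0 < Complex.normSq AS * Complex.normSq A0 :=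
      mul_pos (Complex.normSq_pos.2 hAS) (Complex.normSq_pos.2 h0)
    rw [← e4]
    refine le_of_mul_le_mul_left ?_ hpos
    rw [e3, mul_zero]
    exact neg_nonneg.2 (mul_nonpos_of_nonneg_of_nonpos hr s1.1)

end

theorem phase_certifiable {ψ : (Fin N → Fin 2) → ℂ} (hu : star ψ ⬝ᵥ ψ = 1)
    (hψ : ∀ S : Finset (Fin N), ∃ p : Fin 2 → ℂ, star ψ ⬝ᵥ pv ∅ 0 p ≠ 0 ∧
      star ψ ⬝ᵥ pv ∅ 0 (J (star p)) ≠ 0 ∧ ∃ r : ℝ, 0 ≤ r ∧
        (star ψ ⬝ᵥ pv S (J (star p)) p) * (star ψ ⬝ᵥ pv S p (J (star p))) *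
          star ((star ψ ⬝ᵥ pv ∅ 0 p) * (star ψ ⬝ᵥ pv ∅ 0 (J (star p)))) = r) :
    Certifiable {ρ | IsDensity ρ} ψ := by
  intro ρ hρ hd
  have hτ : IsDensity (proj ψ) := ⟨Matrix.posSemidef_vecMulVec_self_star ψ, by
    rw [proj, Matrix.trace_vecMulVec, dotProduct_comm, hu]⟩
  have hD : ∀ (S : Finset (Fin N)) (p g : Fin 2 → ℂ),
      star (pv S (J (star p)) g) ⬝ᵥ ρ *ᵥ pv S (J (star g)) p =
        star (star ψ ⬝ᵥ pv S (J (star p)) g) * (star ψ ⬝ᵥ pv S (J (star g)) p) := by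
    intro S p g
    have e1 : star (J (star p)) = J p := by
      funext b; fin_cases b <;> simp [J]
    rw [star_dot, star_pv, e1, same_pv hρ hτ hd, proj, Matrix.vecMulVec_mulVec, dotProduct_smul]
    simp
  obtain ⟨p0, hp0, -⟩ := hψ ∅
  set c := star ψ ⬝ᵥ pv ∅ 0 p0 with hc
  set b0 : (Fin N → Fin 2) → ℂ := c⁻¹ • pv ∅ 0 p0 with hb0
  have h0 : ∀ p q, star b0 ⬝ᵥ ρ *ᵥ pv ∅ q p = star ψ ⬝ᵥ pv ∅ q p := by
    intro p q
    have h1 : star (pv ∅ 0 p0) ⬝ᵥ ρ *ᵥ pv ∅ q p = star c * (star ψ ⬝ᵥ pv ∅ q p) := by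
      have := hD ∅ p p0
      rwa [pv_empty _ 0 p0, pv_empty _ q p] at this
    rw [hb0, star_smul, smul_dotProduct, h1, smul_eq_mul, ← mul_assoc, ← star_mul',
      inv_mul_cancel₀ hp0, star_one, one_mul]
  have hbb : star b0 ⬝ᵥ ρ *ᵥ b0 = 1 := by
    nth_rewrite 2 [hb0]
    rw [Matrix.mulVec_smul, dotProduct_smul, h0, smul_eq_mul, inv_mul_cancel₀ hp0]
  have hall := all_Dv_phase hρ.1 hbb hD (fun p q => by
    rw [Dv_apply, dev, Matrix.mulVec_sub, Matrix.mulVec_smul, dotProduct_sub, dotProduct_smul, hbb,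
      h0, smul_eq_mul, mul_one, sub_self]) hψ
  set r := ρ *ᵥ b0 with hr
  have hent : ∀ i y, ρ i y = r i * star (ψ y) := by
    intro i y
    have h1 := hall (Finset.univ.filter fun k => y k = 1) ![1, 0] ![0, 1]
    rw [← single_eq_pv, Dv_apply, dev, Matrix.mulVec_sub, Matrix.mulVec_smul, sub_eq_zero] at h1
    have h2 := congrFun h1 i
    simpa [mul_comm] using h2
  have hent' : ∀ i y, ρ i y = ψ i * star (r y) := by
    intro i y
    rw [← hρ.1.1.apply i y, hent y i, star_mul', star_star, mul_comm]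
  have hrψ : ∀ i, r i = ψ i * (star r ⬝ᵥ ψ) := by
    intro i
    have h1 : ∑ y, ρ i y * ψ y = r i := by
      simp only [hent, mul_assoc, ← Finset.mul_sum]
      rw [show ∑ y, star (ψ y) * ψ y = 1 from hu, mul_one]
    rw [← h1]
    simp only [hent', mul_assoc, ← Finset.mul_sum]
    rfl
  have hρ' : ρ = (star r ⬝ᵥ ψ) • proj ψ := by
    ext i y
    rw [hent, hrψ i]
    simp only [proj, Matrix.smul_apply, Matrix.vecMulVec_apply, Pi.star_apply, smul_eq_mul]
    ring
  have h1 := hρ.2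
  rw [hρ', Matrix.trace_smul, hτ.2, smul_eq_mul, mul_one] at h1
  rw [hρ', h1, one_smul]

lemma amp_eq (U : Matrix (Fin 2) (Fin 2) ℂ) (ψ : (Fin N → Fin 2) → ℂ) (S : Finset (Fin N))
    (a b : Fin 2) :
    star ψ ⬝ᵥ pv S (star (U a)) (star (U b)) = star (amp U ψ fun k => if k ∈ S then a else b) := by
  rw [← star_pv, Matrix.star_dotProduct_star, amp, dotProduct]
  congr 1
  refine Finset.sum_congr rfl fun y _ => ?_
  congr 1
  refine Finset.prod_congr rfl fun k _ => ?_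
  split_ifs <;> rfl

lemma unitary_row {U : Matrix (Fin 2) (Fin 2) ℂ} (hU : U ∈ Matrix.unitaryGroup (Fin 2) ℂ) :
    ∃ d : ℂ, d * star d = 1 ∧ J (star (star (U 0))) = d • star (U 1) := by
  have h1 := Matrix.mem_unitaryGroup_iff.1 hU
  have h2 := Matrix.mem_unitaryGroup_iff'.1 hU
  have h3 := congrArg Matrix.det h1
  rw [Matrix.det_mul, Matrix.det_one, Matrix.star_eq_conjTranspose, Matrix.det_conjTranspose] at h3
  refine ⟨U.det, h3, ?_⟩
  have e01 := congrFun (congrFun h1 0) 1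
  have e11 := congrFun (congrFun h1 1) 1
  simp only [Matrix.mul_apply, Fin.sum_univ_two, Matrix.star_apply, Matrix.one_apply_eq,
    Matrix.one_apply_ne (show (0 : Fin 2) ≠ 1 by decide)] at e01 e11
  funext b
  fin_cases b
  · simp only [J, star_star, Fin.zero_eta, Matrix.cons_val_zero, Pi.smul_apply, Pi.star_apply,
      smul_eq_mul, Matrix.det_fin_two]
    linear_combination (U 0 1) * e11 - (U 1 1) * e01
  · simp only [J, star_star, Fin.mk_one, Matrix.cons_val_one, Matrix.cons_val_zero, Pi.smul_apply,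
      Pi.star_apply, smul_eq_mul, Matrix.det_fin_two]
    linear_combination (U 1 0) * e01 - (U 0 0) * e11

theorem certifiable_of_phase {ψ : (Fin N → Fin 2) → ℂ} (hu : star ψ ⬝ᵥ ψ = 1)
    (h : ∀ x : Fin N → Fin 2, ∃ U ∈ Matrix.unitaryGroup (Fin 2) ℂ, amp U ψ 0 ≠ 0 ∧ amp U ψ 1 ≠ 0 ∧
      ∃ r : ℝ, 0 ≤ r ∧ amp U ψ x * amp U ψ (1 - x) * star (amp U ψ 0 * amp U ψ 1) = r) :
    Certifiable {ρ | IsDensity ρ} ψ := by
  refine phase_certifiable hu fun S => ?_
  obtain ⟨U, hU, h0, h1, r, hr, hrr⟩ := h fun k => if k ∈ S then 1 else 0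
  obtain ⟨d, hd, hJ⟩ := unitary_row hU
  have hd0 : d ≠ 0 := left_ne_zero_of_mul_eq_one hd
  have a0 : star ψ ⬝ᵥ pv ∅ 0 (star (U 0)) = star (amp U ψ 0) := by
    rw [pv_empty 0 (star (U 0)), amp_eq]; simp only [ite_self]; rfl
  have a1 : star ψ ⬝ᵥ pv ∅ 0 (star (U 1)) = star (amp U ψ 1) := by
    rw [pv_empty 0 (star (U 1)), amp_eq]; simp only [ite_self]; rfl
  have e1 : (1 - fun k => if k ∈ S then (1 : Fin 2) else 0) = fun k => if k ∈ S then 0 else 1 := by
    funext k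
    by_cases hk : k ∈ S <;> simp [hk]
  refine ⟨star (U 0), ?_, ?_, r, hr, ?_⟩
  · rw [a0]; exact star_ne_zero.2 h0
  · rw [hJ, pv_smul, dotProduct_smul, a1]
    exact mul_ne_zero (pow_ne_zero _ hd0) (star_ne_zero.2 h1)
  · rw [hJ, pv_smul, pv_smul, pv_smul_left, dotProduct_smul, dotProduct_smul, dotProduct_smul, a0,
      a1, amp_eq, amp_eq]
    rw [e1] at hrr
    have h2 := congrArg star hrr
    have h3 : d ^ S.card * d ^ Sᶜ.card * star d ^ (∅ : Finset (Fin N))ᶜ.card = 1 := by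
      rw [← pow_add, Finset.card_add_card_compl, Finset.compl_empty, Finset.card_univ, ← mul_pow,
        hd, one_pow]
    simp only [smul_eq_mul, star_mul', star_star, star_pow] at h2 ⊢
    rw [Complex.star_def, Complex.conj_ofReal, ← Complex.star_def] at h2
    linear_combination (d ^ S.card * d ^ Sᶜ.card * star d ^ (∅ : Finset (Fin N))ᶜ.card) * h2 +
      (r : ℂ) * h3

/-- Instance: real vectors with a nonzero amplitude on the constant outcome along the `Y` axis. -/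
theorem certifiable_of_real {ψ : (Fin N → Fin 2) → ℂ} (hu : star ψ ⬝ᵥ ψ = 1)
    (hr : ∀ x, star (ψ x) = ψ x) (h : ∑ y, (∏ k, (![1, I] : Fin 2 → ℂ) (y k)) * ψ y ≠ 0) :
    Certifiable {ρ | IsDensity ρ} ψ := by
  set c : ℂ := ((√2 : ℝ) : ℂ)⁻¹ with hc
  have hc2 : c * c = 2⁻¹ := by
    rw [hc, ← mul_inv, ← Complex.ofReal_mul, Real.mul_self_sqrt (by norm_num)]; norm_num
  have hcs : star c = c := by rw [hc, star_inv₀, Complex.star_def, Complex.conj_ofReal]
  have hc0 : c ≠ 0 := fun h0 => by rw [h0] at hc2; norm_num at hc2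
  set U : Matrix (Fin 2) (Fin 2) ℂ := !![c, c * I; c, -(c * I)] with hU
  have hUu : U ∈ Matrix.unitaryGroup (Fin 2) ℂ := by
    rw [Matrix.mem_unitaryGroup_iff]
    rw [Complex.star_def] at hcs
    have hI : I * I = -1 := I_mul_I
    ext i j
    fin_cases i <;> fin_cases j <;>
      simp [hU, Matrix.mul_apply, Fin.sum_univ_two, Matrix.star_apply, hcs] <;>
      first
        | linear_combination 2 * hc2 - c * c * hI
        | linear_combination c * c * hI
  have hconj : ∀ x, amp U ψ (1 - x) = star (amp U ψ x) := by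
    intro x
    simp only [amp, star_sum, star_mul', star_prod, hr]
    refine Finset.sum_congr rfl fun y _ => ?_
    congr 1
    refine Finset.prod_congr rfl fun k _ => ?_
    rw [Complex.star_def] at hcs
    simp only [Pi.sub_apply, Pi.one_apply]
    generalize x k = a
    generalize y k = b
    fin_cases a <;> fin_cases b <;> simp [hU, hcs]
  have h0 : amp U ψ 0 ≠ 0 := by
    have e : amp U ψ 0 = c ^ N * ∑ y, (∏ k, (![1, I] : Fin 2 → ℂ) (y k)) * ψ y := by
      rw [amp, Finset.mul_sum]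
      refine Finset.sum_congr rfl fun y _ => ?_
      have e2 : ∀ b : Fin 2, U 0 b = c * (![1, I] : Fin 2 → ℂ) b := by
        intro b; fin_cases b <;> simp [hU]
      simp only [Pi.zero_apply, e2, Finset.prod_mul_distrib, Finset.prod_const, Finset.card_univ,
        Fintype.card_fin, mul_assoc]
    rw [e]
    exact mul_ne_zero (pow_ne_zero _ hc0) h
  have h1 : amp U ψ 1 = star (amp U ψ 0) := by rw [← hconj, sub_zero]
  refine certifiable_of_phase hu fun x => ⟨U, hUu, h0, by rw [h1]; exact star_ne_zero.2 h0,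
    Complex.normSq (amp U ψ x) * Complex.normSq (amp U ψ 0),
    mul_nonneg (Complex.normSq_nonneg _) (Complex.normSq_nonneg _), ?_⟩
  rw [hconj, h1]
  push_cast
  rw [Complex.normSq_eq_conj_mul_self, Complex.normSq_eq_conj_mul_self, star_mul', star_star]
  simp only [Complex.star_def]
  ring

end Pool.Agent.Lib.MP_f2ebd2_mp
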